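import Pool.Agent.W5h89.Half.Geo

/-!
# The pair of idempotents attached to a negative and a positive class
-/

open CategoryTheory AlgebraicGeometry Finset

universe u v

namespace Pool.Agent.W5h89.Half

open Pool.Agent.H914 Pool.Agent.H914.VarClass Pool.Agent.H914.VarClass.Obj
  Pool.Agent.H914.WeilCohomology Pool.Agent.H281R3.HT Pool.Agent.W552 Pool.Agent.W539.Ker

variable {k : Type u} [Field k] {𝒱 : VarClass k} {ops : CycleOps 𝒱}
  {W : WeilCohomology.{u, v} ops} {X Y Z : 𝒱.Obj}

lemma cyc_zero {z : X.Cycles} (hz : X.IsCyc 0 z) : ∃ q : ℚ, z = q • X.V.fundCycle := by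
  classical
  refine ⟨X.V.coeff z (genericPoint X.V.X), ?_⟩
  have key : ∀ x, x ≠ genericPoint X.V.X → X.V.coeff z x = 0 := by
    intro x hx
    by_contra h0
    have h1 := hz x h0
    rw [Nat.cast_zero, Order.coheight_eq_zero] at h1
    apply hx
    have h2 : x ≤ genericPoint X.V.X := genericPoint_specializes x
    have h3 : genericPoint X.V.X ≤ x := h1 h2
    exact (Specializes.antisymm h3 h2).eq
  refine Finsupp.ext (α := X.V.X) (M := ℚ) fun x => ?_
  have h4 : X.V.coeff (X.V.coeff z (genericPoint X.V.X) • X.V.fundCycle) x =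
      X.V.coeff z (genericPoint X.V.X) * X.V.coeff X.V.fundCycle x :=
    Finsupp.smul_apply (M := ℚ) (α := X.V.X) _ _ x
  change X.V.coeff z x = X.V.coeff (X.V.coeff z (genericPoint X.V.X) • X.V.fundCycle) x
  rw [h4]
  by_cases hx : x = genericPoint X.V.X
  · subst hx
    rw [show X.V.coeff X.V.fundCycle (genericPoint X.V.X) = 1 from
      Finsupp.single_eq_same (M := ℚ) (α := X.V.X), mul_one]
  · rw [key x hx, show X.V.coeff X.V.fundCycle x = 0 from
      Finsupp.single_eq_of_ne (M := ℚ) (α := X.V.X) hx, mul_zero]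

section Rank

variable {D : X.Cycles} {f : Module.End W.K (W.H X)}

/-- The operator `x ↦ bf(a, x) b`. -/
noncomputable def rk1 (W : WeilCohomology.{u, v} ops) (X : 𝒱.Obj) (D : X.Cycles)
    (f : Module.End W.K (W.H X)) (a b : W.H X) : Module.End W.K (W.H X) :=
  (bf W X D f a).smulRight b

lemma rk1_apply (a b x : W.H X) : rk1 W X D f a b x = bf W X D f a x • b := rfl

lemma rk1_mul (a b a' b' : W.H X) :
    rk1 W X D f a b * rk1 W X D f a' b' = bf W X D f a b' • rk1 W X D f a' b := by
  apply LinearMap.ext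
  intro x
  rw [Module.End.mul_apply, LinearMap.smul_apply, rk1_apply, rk1_apply, rk1_apply, map_smul,
    smul_eq_mul, smul_smul, mul_comm]

variable (G : Gd W X D f)

include G

lemma rk1_op0 {t : ℕ} {a b : W.H X} (ha : a ∈ algClasses W X t) (hb : b ∈ algClasses W X t) :
    Op0 W X (rk1 W X D f a b) := by
  constructor
  · have h1 : rk1 W X D f a b =
        W.corr (W.map (swap X X) (W.map (fst X X) b * W.map (snd X X) a)) * st W X D f := by
      rw [corr_swap_tmul (alg_gr hb) (alg_gr ha)]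
      apply LinearMap.ext
      intro x
      rfl
    rw [h1]
    exact AOp.mul ⟨_, (((AS.of hb).map _).mul ((AS.of ha).map _)).map _, rfl⟩ G.sa
  · apply LinearMap.ext
    intro x
    rw [Module.End.mul_apply, Module.End.mul_apply, rk1_apply, rk1_apply, map_smul,
      Fr.wt_gr (alg_gr hb), ← G.wt_self, Fr.wt_gr (alg_gr ha), map_smul, LinearMap.smul_apply,
      smul_eq_mul, smul_smul, mul_comm]

lemma rk1_adj {a b : W.H X} (ha : AS W X a) (x y : W.H X) :
    bf W X D f (rk1 W X D f a b x) y = bf W X D f x (rk1 W X D f b a y) := by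
  rw [rk1_apply, rk1_apply, map_smul, LinearMap.smul_apply, map_smul, Sy.alg G.sy ha, smul_eq_mul,
    smul_eq_mul, mul_comm]

/-- The quadruple of a negative class `v` and a positive class `w` of the same degree. -/
lemma gq_of {t : ℕ} {v w : W.H X} (hv : v ∈ algClasses W X t) (hw : w ∈ algClasses W X t)
    {α β : ℚ} (hα : bf W X D f v v = (α : W.K)) (hβ : bf W X D f w w = (β : W.K)) (ha : α < 0)
    (hb : 0 < β) (hvw : bf W X D f v w = 0) :
    GQ W X D f (((α⁻¹ : ℚ) : W.K) • rk1 W X D f v v) (((β⁻¹ : ℚ) : W.K) • rk1 W X D f w w)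
      (rk1 W X D f v w) (rk1 W X D f w v) (α * β) := by
  have hwv : bf W X D f w v = 0 := by rw [Sy.alg G.sy (AS.of hv)]; exact hvw
  have sm : ∀ (q : ℚ) {u : Module.End W.K (W.H X)}, Op0 W X u → Op0 W X ((q : W.K) • u) :=
    fun q u h => ⟨h.alg.smul q, h.com.smul_left _⟩
  have hα0 : (α : W.K) ≠ 0 := by exact_mod_cast ha.ne
  have hβ0 : (β : W.K) ≠ 0 := by exact_mod_cast hb.ne'
  refine ⟨sm _ (rk1_op0 G hv hv), sm _ (rk1_op0 G hw hw), rk1_op0 G hv hw, rk1_op0 G hw hv,
    ?_, ?_, rk1_adj G (AS.of hv), rk1_adj G (AS.of hw), ?_, ?_, ?_, ?_, ?_, ?_, ?_, ?_, ?_, ?_, ?_⟩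
  · intro x y
    rw [LinearMap.smul_apply, LinearMap.smul_apply, map_smul, LinearMap.smul_apply, map_smul,
      rk1_adj G (AS.of hv)]
  · intro x y
    rw [LinearMap.smul_apply, LinearMap.smul_apply, map_smul, LinearMap.smul_apply, map_smul,
      rk1_adj G (AS.of hw)]
  · rw [smul_mul_smul_comm, rk1_mul, hα, smul_smul]
    congr 1
    push_cast
    field_simp
  · rw [smul_mul_smul_comm, rk1_mul, hβ, smul_smul]
    congr 1
    push_cast
    field_simp
  · rw [smul_mul_smul_comm, rk1_mul, hvw, zero_smul, smul_zero]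
  · rw [smul_mul_smul_comm, rk1_mul, hwv, zero_smul, smul_zero]
  · rw [mul_smul_comm, rk1_mul, hα, smul_smul]
    push_cast
    rw [inv_mul_cancel₀ hα0, one_smul]
  · rw [smul_mul_assoc, rk1_mul, hβ, smul_smul]
    push_cast
    rw [inv_mul_cancel₀ hβ0, one_smul]
  · rw [smul_mul_assoc, rk1_mul, hα, smul_smul]
    push_cast
    rw [inv_mul_cancel₀ hα0, one_smul]
  · rw [mul_smul_comm, rk1_mul, hβ, smul_smul]
    push_cast
    rw [inv_mul_cancel₀ hβ0, one_smul]
  · rw [rk1_mul, hβ, smul_smul]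
    congr 1
    push_cast
    field_simp
  · rw [rk1_mul, hα, smul_smul]
    congr 1
    push_cast
    field_simp
  · exact mul_neg_of_neg_of_pos ha hb

/-- The rank of the complement. -/
lemma rank_compl {v w : W.H X}
    {α β : ℚ} (hα : bf W X D f v v = (α : W.K)) (hβ : bf W X D f w w = (β : W.K)) (ha : α ≠ 0)
    (hb : β ≠ 0) (hvw : bf W X D f v w = 0) (hwv : bf W X D f w v = 0) :
    Module.finrank W.K (LinearMap.range (1 - ((α⁻¹ : ℚ) : W.K) • rk1 W X D f v v -
      ((β⁻¹ : ℚ) : W.K) • rk1 W X D f w w)) + 2 ≤ Module.finrank W.K (W.H X) := by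
  set e : Module.End W.K (W.H X) := 1 - ((α⁻¹ : ℚ) : W.K) • rk1 W X D f v v -
      ((β⁻¹ : ℚ) : W.K) • rk1 W X D f w w with he
  have hα0 : (α : W.K) ≠ 0 := by exact_mod_cast ha
  have hβ0 : (β : W.K) ≠ 0 := by exact_mod_cast hb
  have h1 : e v = 0 := by
    rw [he]
    simp only [LinearMap.sub_apply, Module.End.one_apply, LinearMap.smul_apply, rk1_apply]
    rw [hα, hwv, zero_smul, smul_zero, smul_smul]
    push_cast
    rw [inv_mul_cancel₀ hα0]
    simp
  have h2 : e w = 0 := by
    rw [he]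
    simp only [LinearMap.sub_apply, Module.End.one_apply, LinearMap.smul_apply, rk1_apply]
    rw [hβ, hvw, zero_smul, smul_zero, smul_smul]
    push_cast
    rw [inv_mul_cancel₀ hβ0]
    simp
  have h3 : LinearIndependent W.K (![⟨v, h1⟩, ⟨w, h2⟩] : Fin 2 → LinearMap.ker e) := by
    have h4 : LinearIndependent W.K (![v, w] : Fin 2 → W.H X) := by
      apply li_of_orth (b := bf W X D f)
      · intro i
        fin_cases i
        · change bf W X D f v v ≠ 0
          rw [hα]; exact hα0
        · change bf W X D f w w ≠ 0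
          rw [hβ]; exact hβ0
      · intro i j hij
        fin_cases i <;> fin_cases j
        · exact absurd rfl hij
        · exact hvw
        · exact hwv
        · exact absurd rfl hij
    apply LinearIndependent.of_comp (LinearMap.ker e).subtype
    convert h4 using 1
    funext i
    fin_cases i <;> rfl
  have h4 := h3.fintype_card_le_finrank
  rw [Fintype.card_fin] at h4
  have h5 := LinearMap.finrank_range_add_finrank_ker e
  omega

/-- **The quadruple attached to a primitive cycle with negative square.** -/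
theorem exists_gq (hdeg : 0 < X.V.degCycle (divPow ops D X.dim X.V.fundCycle)) {n : ℕ}
    (hn : 2 * n ≤ X.dim) {z : X.Cycles} (hz : Primitive W X D n z)
    (hneg : pairing ops X D n z z < 0) :
    ∃ p q t t' c, GQ W X D f p q t t' c ∧
      Module.finrank W.K (LinearMap.range (1 - p - q)) + 2 ≤ Module.finrank W.K (W.H X) := by
  have F := G.fr
  have hfund : X.IsCyc 0 X.V.fundCycle := X.V.fundCycle_mem
  have hcdeg : W.tr X (((LinearMap.mulLeft W.K (W.cl X D)) ^ X.dim) 1) =
      ((X.V.degCycle (divPow ops D X.dim X.V.fundCycle) : ℚ) : W.K) := by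
    rw [← W.cl_fund, ← cl_divPow, W.tr_cl]
    have := divPow_mem (ops := ops) F.hD X.dim hfund
    rwa [zero_add] at this
  -- the codimension is positive
  have hn0 : n ≠ 0 := by
    rintro rfl
    obtain ⟨q, rfl⟩ := cyc_zero hz.1
    have h1 := pairing_cast (W := W) F.hD hn hz.1 hz.1
    rw [W.cl_smul, W.cl_fund, smul_mul_assoc, one_mul, map_smul, map_smul, map_smul, pow_zero,
      one_mul, Nat.mul_zero, Nat.sub_zero, hcdeg, smul_eq_mul, smul_eq_mul, ← mul_assoc] at h1
    have h2 : pairing ops X D 0 (q • X.V.fundCycle) (q • X.V.fundCycle) =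
        q * q * X.V.degCycle (divPow ops D X.dim X.V.fundCycle) := by exact_mod_cast h1
    rw [h2] at hneg
    have := mul_nonneg (mul_self_nonneg q) hdeg.le
    linarith
  have hP0 : Primitive W X D 0 X.V.fundCycle := by
    refine ⟨hfund, ?_⟩
    have h1 := W.cl_mem (divPow_mem (ops := ops) F.hD (X.dim - 2 * 0 + 1) hfund)
    rw [W.gr_eq_bot X _ (by omega)] at h1
    exact (Submodule.mem_bot _).1 h1
  have hv : W.cl X z ∈ algClasses W X n := ⟨z, hz.1, rfl⟩
  have hw : ((LinearMap.mulLeft W.K (W.cl X D)) ^ n) (W.cl X X.V.fundCycle) ∈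
      algClasses W X n := by
    have := (ap_alg F).map_L_pow n (l := 0) ⟨X.V.fundCycle, hfund, rfl⟩
    rwa [zero_add] at this
  have e1 := bf_same F hn hz hz (j := 0) (Nat.zero_le _)
  rw [pow_zero, Module.End.one_apply] at e1
  have e2 := bf_same F (n := 0) (by omega) hP0 hP0 (j := n) (by omega)
  have e3 := bf_cross F (n := n) (n' := 0) hn (by omega) hn0 hz hP0 (j := 0) (j' := n)
    (by omega) (by omega)
  rw [pow_zero, Module.End.one_apply] at e3
  have hpos : 0 < pairing ops X D 0 X.V.fundCycle X.V.fundCycle := by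
    have h1 := pairing_cast (W := W) F.hD (n := 0) (by omega) hfund hfund
    rw [W.cl_fund, one_mul, pow_zero, one_mul, Nat.mul_zero, Nat.sub_zero, hcdeg] at h1
    have h2 : pairing ops X D 0 X.V.fundCycle X.V.fundCycle =
        X.V.degCycle (divPow ops D X.dim X.V.fundCycle) := by exact_mod_cast h1
    rw [h2]; exact hdeg
  have hα : (0 : ℚ) > (((0 : ℕ).factorial : ℚ) * ((X.dim - 2 * n - 0).factorial : ℚ)⁻¹ *
      pairing ops X D n z z) := by
    apply mul_neg_of_pos_of_neg _ hneg
    positivity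
  have hβ : (0 : ℚ) < ((n.factorial : ℚ) * ((X.dim - 2 * 0 - n).factorial : ℚ)⁻¹ *
      pairing ops X D 0 X.V.fundCycle X.V.fundCycle) := by
    apply mul_pos _ hpos
    positivity
  refine ⟨_, _, _, _, _, gq_of G hv hw e1 e2 hα hβ e3, ?_⟩
  exact rank_compl G e1 e2 hα.ne hβ.ne' e3 (by rw [Sy.alg G.sy (AS.of hv)]; exact e3)

end Rank

end Pool.Agent.W5h89.Half
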