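import Pool.Agent.W539.Ker.Defs

/-!
# The indices of the pairings on the powers of a variety: definitions
-/

open CategoryTheory AlgebraicGeometry

universe u v

namespace Pool.Agent.W5h89.Half

open Pool.Agent.H914 Pool.Agent.H914.VarClass Pool.Agent.H914.VarClass.Obj
  Pool.Agent.H281R3.HT Pool.Agent.W539.Ker

variable {k : Type u} [Field k] {𝒱 : VarClass k} {ops : CycleOps 𝒱}

/-- The power `X × (X × ⋯ × X)` with `n + 1` factors, with the sum of the pull-backs of the
divisor. -/
noncomputable def power (ops : CycleOps 𝒱) (P : Polarized 𝒱) : ℕ → Polarized 𝒱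
  | 0 => P
  | n + 1 => P.prod ops (power ops P n)

/-- The product `X × (X × ⋯ × (X × Y))` with `n` factors `X`, with the sum of the pull-backs of the
divisors. -/
noncomputable def tower (ops : CycleOps 𝒱) (P Q : Polarized 𝒱) : ℕ → Polarized 𝒱
  | 0 => Q
  | n + 1 => P.prod ops (tower ops P Q n)

/-- The sum over the codimensions `n ≤ dim X / 2` of the largest number of pairwise orthogonal
primitive cycles `z` of codimension `n` on `X` for which `s * ⟨z, z⟩` is positive. -/
noncomputable def index (W : WeilCohomology.{u, v} ops) (P : Polarized 𝒱) (s : ℚ) : ℕ :=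
  ∑ n ∈ Finset.range (P.X.dim / 2 + 1), sSup {r | HasFamily W P.X P.D n s r}

/-- The cycle `z` of codimension `n` on `X` is numerically trivial. -/
def NumTrivial (ops : CycleOps 𝒱) (X : 𝒱.Obj) (n : ℕ) (z : X.Cycles) : Prop :=
  ∀ w, X.IsCyc (X.dim - n) w → X.V.degCycle (ops.mul z w) = 0

/-- The cycle `z` on `X` has codimension `n`, and it is primitive modulo numerical equivalence:
the cycle `D ^ (d - 2 n + 1) · z` is numerically trivial. -/
def NumPrimitive (ops : CycleOps 𝒱) (X : 𝒱.Obj) (D : X.Cycles) (n : ℕ) (z : X.Cycles) : Prop :=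
  X.IsCyc n z ∧ ∀ m w, m + 1 = n → X.IsCyc m w →
    X.V.degCycle (ops.mul (divPow ops D (X.dim - 2 * n + 1) z) w) = 0

/-- Grothendieck's standard conjecture of Hodge type for `X` and `D`: for `2 n ≤ d` the pairing
`(-1) ^ n deg (z · D ^ (d - 2 n) · w)` is positive definite on the primitive cycles of
codimension `n` modulo numerical equivalence. -/
def HodgeStandard (ops : CycleOps 𝒱) (P : Polarized 𝒱) : Prop :=
  ∀ n, 2 * n ≤ P.X.dim → ∀ z, NumPrimitive ops P.X P.D n z → ¬ NumTrivial ops P.X n z →
    0 < pairing ops P.X P.D n z z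

/-- `D` is a divisor on `X` of positive degree `D ^ d` for which the hard Lefschetz theorem and the
Lefschetz standard conjecture hold. -/
structure Good (W : WeilCohomology.{u, v} ops) (P : Polarized 𝒱) : Prop where
  div : P.X.IsCyc 1 P.D
  deg_pos : 0 < P.X.V.degCycle (divPow ops P.D P.X.dim P.X.V.fundCycle)
  hard : HardLefschetz W P.X P.D
  lefschetz : LefschetzB W P.X P.D

end Pool.Agent.W5h89.Half
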