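import Pool.Agent.W539.Ker.Ops

/-!
# The Lefschetz standard conjecture for products, with operators
-/

open CategoryTheory AlgebraicGeometry Finset

universe u v

namespace Pool.Agent.W5h89.Half

open Pool.Agent.H914 Pool.Agent.H914.VarClass Pool.Agent.H914.VarClass.Obj
  Pool.Agent.H914.WeilCohomology Pool.Agent.H281R3.HT Pool.Agent.W552 Pool.Agent.W539.Ker

variable {k : Type u} [Field k] {𝒱 : VarClass k} {ops : CycleOps 𝒱}
  {W : WeilCohomology.{u, v} ops} {X Y Z : 𝒱.Obj}

lemma pair_zero {i : ℕ} {a : W.H X} (ha : a ∈ W.gr X i)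
    (h : ∀ b ∈ W.gr X (2 * X.dim - i), W.tr X (a * b) = 0) : a = 0 := by
  apply W.nondeg
  intro b
  refine gr_induction (W.isInternal X) (p := fun b => W.tr X (a * b) = 0) ?_ ?_ b
  · intro l b hb
    by_cases hl : i + l = 2 * X.dim
    · exact h b (by rwa [show 2 * X.dim - i = l by omega])
    · exact W.tr_eq_zero (W.mul_mem ha hb) hl
  · intro b b' hb hb'
    rw [mul_add, map_add, hb, hb', add_zero]

lemma finrank_gr_le {i : ℕ} : Module.finrank W.K (W.gr X i) ≤
    Module.finrank W.K (W.gr X (2 * X.dim - i)) := by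
  rw [← Subspace.dual_finrank_eq (K := W.K) (V := W.gr X (2 * X.dim - i))]
  let φ : W.gr X i →ₗ[W.K] Module.Dual W.K (W.gr X (2 * X.dim - i)) :=
    ((bil W X).domRestrict₁₂ (W.gr X i) (W.gr X (2 * X.dim - i)))
  refine LinearMap.finrank_le_finrank_of_injective (f := φ) ?_
  rw [← LinearMap.ker_eq_bot, LinearMap.ker_eq_bot']
  rintro ⟨a, ha⟩ h0
  apply Subtype.ext
  refine pair_zero ha fun b hb => ?_
  have := congrArg (fun g => g ⟨b, hb⟩) h0
  exact this

lemma finrank_gr_eq {i : ℕ} (hi : i ≤ 2 * X.dim) : Module.finrank W.K (W.gr X i) =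
    Module.finrank W.K (W.gr X (2 * X.dim - i)) := by
  refine le_antisymm finrank_gr_le ?_
  have := finrank_gr_le (W := W) (X := X) (i := 2 * X.dim - i)
  rwa [show 2 * X.dim - (2 * X.dim - i) = i by omega] at this

lemma hardLefschetz_of_inj {D : X.Cycles} (hD : X.IsCyc 1 D)
    (h : ∀ i ≤ X.dim, ∀ a ∈ W.gr X i,
      (LinearMap.mulLeft W.K (W.cl X D) ^ (X.dim - i)) a = 0 → a = 0) :
    HardLefschetz W X D := by
  intro i hi
  refine ⟨h i hi, ?_⟩
  have hmem : ∀ v ∈ W.gr X i, ((LinearMap.mulLeft W.K (W.cl X D)) ^ (X.dim - i)) v ∈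
      W.gr X (2 * X.dim - i) := by
    intro v hv
    have := pow_L_mem (mulLeft_isHom (W := W) hD) hv (X.dim - i)
    rwa [show i + 2 * (X.dim - i) = 2 * X.dim - i by omega] at this
  set g : W.gr X i →ₗ[W.K] W.gr X (2 * X.dim - i) :=
    ((LinearMap.mulLeft W.K (W.cl X D)) ^ (X.dim - i)).restrict hmem with hg
  have hginj : Function.Injective g := by
    rw [← LinearMap.ker_eq_bot, LinearMap.ker_eq_bot']
    rintro ⟨v, hv⟩ h0
    apply Subtype.ext
    exact h i hi v hv (congrArg Subtype.val h0)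
  have hgsurj : Function.Surjective g :=
    (LinearMap.injective_iff_surjective_of_finrank_eq_finrank
      (finrank_gr_eq (by omega))).1 hginj
  intro b hb
  obtain ⟨⟨a, ha⟩, hab⟩ := hgsurj ⟨b, hb⟩
  exact ⟨a, ha, congrArg Subtype.val hab⟩

/-- Hard Lefschetz from the lowering operator. -/
lemma Fr.hardLefschetz {D : X.Cycles} {f : Module.End W.K (W.H X)} (F : Fr W X D f) :
    HardLefschetz W X D := by
  refine hardLefschetz_of_inj F.hD fun i hi a ha h0 => ?_
  by_contra ha0
  refine Sl2.e_pow_inj F.sl2 (x := a) (M := X.dim - i) ?_ ha0 le_rfl h0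
  rw [wt, scal_apply _ _ ha, node]
  congr 1
  rw [Nat.cast_sub hi]
  push_cast
  ring

lemma Fr.lefStr {D : X.Cycles} {f : Module.End W.K (W.H X)} (F : Fr W X D f) :
    LefStr (W.isInternal X) X.dim (LinearMap.mulLeft W.K (W.cl X D)) f :=
  ⟨mulLeft_isHom F.hD, W_hbd, Fr.hardLefschetz F, F.sl2⟩

section

variable {D : X.Cycles} {f : Module.End W.K (W.H X)} {E : Y.Cycles}
  {g : Module.End W.K (W.H Y)}

/-- The star operator on a product. -/
lemma st_prod (F : Fr W X D f) (G : Fr W Y E g) :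
    st W (X.prod Y) (ops.pull (fst X Y) D + ops.pull (snd X Y) E) (extSum W f g) =
      extS W (st W X D f) (st W Y E g) := by
  apply LinearMap.ext
  intro x
  refine W.kunneth_induction (p := fun x => st W (X.prod Y)
    (ops.pull (fst X Y) D + ops.pull (snd X Y) E) (extSum W f g) x =
      extS W (st W X D f) (st W Y E g) x) ?_ ?_ x
  · intro a b ha hb
    rw [map_add, map_add, ha, hb]
  · intro i j a ha b hb
    have hm : W.map (fst X Y) a * W.map (snd X Y) b ∈ W.gr (X.prod Y) (i + j) :=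
      W.mul_mem (W.map_mem _ ha) (W.map_mem _ hb)
    rw [extS_tmul _ _ ha hb, st_apply hm, wop_prod F.sl2 G.sl2 G.hD, st_apply ha, st_apply hb,
      map_smul, map_smul, smul_mul_assoc, mul_smul_comm, smul_smul, smul_smul, sg_add]
    congr 1
    push_cast
    ring

lemma extS_aop {S : Module.End W.K (W.H X)} {S' : Module.End W.K (W.H Y)} (hS : AOp W X X S)
    (hS' : AOp W Y Y S') (hp : AOp W X X (par (W.isInternal X)))
    (hp' : AOp W Y Y (par (W.isInternal Y))) :
    AOp W (X.prod Y) (X.prod Y) (extS W S S') := by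
  have h1 : extS W S S' = (((2⁻¹ : ℚ) : W.K)) • (extOp W S S' +
    extOp W (S * par (W.isInternal X)) S' + extOp W S (S' * par (W.isInternal Y)) -
    extOp W (S * par (W.isInternal X)) (S' * par (W.isInternal Y))) := by
    rw [extS]
    congr 1
    push_cast
    rfl
  rw [h1]
  refine AOp.smul _ ?_
  refine AOp.ratSub.sub (((hS.ext hS').add ((hS.mul hp).ext hS')).add (hS.ext (hS'.mul hp')))
    ((hS.mul hp).ext (hS'.mul hp'))

lemma par_ext : par (W.isInternal (X.prod Y)) =
    extOp W (par (W.isInternal X)) (par (W.isInternal Y)) := by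
  apply LinearMap.ext
  intro x
  refine W.kunneth_induction (p := fun x => par (W.isInternal (X.prod Y)) x =
    extOp W (par (W.isInternal X)) (par (W.isInternal Y)) x) ?_ ?_ x
  · intro a b ha hb
    rw [map_add, map_add, ha, hb]
  · intro i j a ha b hb
    rw [extOp_tmul, par, par, par, scal_apply _ _ (W.mul_mem (W.map_mem _ ha) (W.map_mem _ hb)),
      scal_apply _ _ ha, scal_apply _ _ hb, map_smul, map_smul, smul_mul_assoc, mul_smul_comm,
      smul_smul, pow_add]

/-- **Products of polarized varieties with the Lefschetz standard conjecture.** -/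
lemma gd_prod (G : Gd W X D f) (G' : Gd W Y E g) :
    Gd W (X.prod Y) (ops.pull (fst X Y) D + ops.pull (snd X Y) E) (extSum W f g) where
  fr := G.fr.prod G'.fr
  ls := Fr.lefStr (G.fr.prod G'.fr)
  sa := by
    rw [st_prod G.fr G'.fr]
    exact extS_aop G.sa G'.sa G.pa G'.pa
  pa := by
    rw [par_ext]
    exact G.pa.ext G'.pa

end

end Pool.Agent.W5h89.Half
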