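import Pool.Agent.W539.Ker.Inertia
import Pool.Agent.W552.RatBasis

/-!
# Signatures of rational forms on rational structures, and their behaviour under idempotents
-/

open Finset

namespace Pool.Agent.W5h89.Half

open Pool.Agent.W539.Ker Pool.Agent.W552

variable {K : Type*} [Field K] [CharZero K] {V : Type*} [AddCommGroup V] [Module K V]

/-- A rational structure with a symmetric rational form. -/
structure QF (P : V → Prop) (b : V →ₗ[K] V →ₗ[K] K) : Prop where
  rs : RatSub K P
  rat : ∀ x y, P x → P y → ∃ q : ℚ, b x y = (q : K)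
  symm : ∀ x y, P x → P y → b x y = b y x

/-- A maximal orthogonal family of anisotropic vectors. -/
structure OMF (P : V → Prop) (b : V →ₗ[K] V →ₗ[K] K) {ι : Type} (y : ι → V) (s : ι → ℚ) :
    Prop where
  mem : ∀ i, P (y i)
  ne : ∀ i, s i ≠ 0
  sq : ∀ i, b (y i) (y i) = (s i : K)
  orth : ∀ i j, i ≠ j → b (y i) (y j) = 0
  max : ∀ u, P u → (∀ i, b u (y i) = 0) → b u u = 0

/-- The rational structure as an additive subgroup. -/
def grp {P : V → Prop} (h : RatSub K P) : AddSubgroup V where
  carrier := {x | P x}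
  add_mem' := h.add
  zero_mem' := h.zero
  neg_mem' := h.neg

lemma mem_grp {P : V → Prop} (h : RatSub K P) (x : grp h) : P (x : V) := x.2

/-- The rational structure as a rational vector space. -/
@[reducible] noncomputable def ratMod {P : V → Prop} (h : RatSub K P) : Module ℚ (grp h) where
  smul q x := ⟨(q : K) • (x : V), h.smul q x.2⟩
  one_smul x := Subtype.ext (by
    change ((1 : ℚ) : K) • (x : V) = x
    rw [Rat.cast_one, one_smul])
  mul_smul q r x := Subtype.ext (by
    change ((q * r : ℚ) : K) • (x : V) = (q : K) • ((r : K) • (x : V))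
    rw [Rat.cast_mul, mul_smul])
  smul_zero q := Subtype.ext (by
    change ((q : ℚ) : K) • (0 : V) = 0
    rw [smul_zero])
  smul_add q x y := Subtype.ext (by
    change ((q : ℚ) : K) • ((x : V) + y) = (q : K) • (x : V) + (q : K) • (y : V)
    rw [smul_add])
  add_smul q r x := Subtype.ext (by
    change ((q + r : ℚ) : K) • (x : V) = (q : K) • (x : V) + (r : K) • (x : V)
    rw [Rat.cast_add, add_smul])
  zero_smul x := Subtype.ext (by
    change ((0 : ℚ) : K) • (x : V) = 0
    rw [Rat.cast_zero, zero_smul])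

variable {P : V → Prop} {b : V →ₗ[K] V →ₗ[K] K}

/-- The rational form. -/
lemma QF.exists_form (h : QF P b) : letI := ratMod h.rs
    ∃ B : grp h.rs →ₗ[ℚ] grp h.rs →ₗ[ℚ] ℚ, ∀ x y, ((B x y : ℚ) : K) = b (x : V) (y : V) := by
  letI := ratMod h.rs
  choose g hg using fun x y : grp h.rs => h.rat x y x.2 y.2
  refine ⟨LinearMap.mk₂ ℚ g ?_ ?_ ?_ ?_, fun x y => (hg x y).symm⟩
  · intro x x' y
    have h1 : ((g (x + x') y : ℚ) : K) = ((g x y + g x' y : ℚ) : K) := by
      rw [Rat.cast_add, ← hg, ← hg, ← hg, AddSubgroup.coe_add, map_add, LinearMap.add_apply]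
    exact_mod_cast h1
  · intro q x y
    have h1 : ((g (q • x) y : ℚ) : K) = ((q • g x y : ℚ) : K) := by
      rw [smul_eq_mul, Rat.cast_mul, ← hg, ← hg]
      change b ((q : K) • (x : V)) y = _
      rw [map_smul, LinearMap.smul_apply, smul_eq_mul]
    exact_mod_cast h1
  · intro x y y'
    have h1 : ((g x (y + y') : ℚ) : K) = ((g x y + g x y' : ℚ) : K) := by
      rw [Rat.cast_add, ← hg, ← hg, ← hg, AddSubgroup.coe_add, map_add]
    exact_mod_cast h1
  · intro q x y
    have h1 : ((g x (q • y) : ℚ) : K) = ((q • g x y : ℚ) : K) := by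
      rw [smul_eq_mul, Rat.cast_mul, ← hg, ← hg]
      change b x ((q : K) • (y : V)) = _
      rw [map_smul, smul_eq_mul]
    exact_mod_cast h1

/-- Comparison with orthogonal families in a rational vector space. -/
lemma OMF.toOM (h : QF P b) {ι : Type} {y : ι → V} {s : ι → ℚ} (o : OMF P b y s) :
    letI := ratMod h.rs
    ∀ B : grp h.rs →ₗ[ℚ] grp h.rs →ₗ[ℚ] ℚ, (∀ x y, ((B x y : ℚ) : K) = b (x : V) (y : V)) →
      OM B (fun i => (⟨y i, o.mem i⟩ : grp h.rs)) ∧
        ∀ i, B ⟨y i, o.mem i⟩ ⟨y i, o.mem i⟩ = s i := by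
  letI := ratMod h.rs
  intro B hB
  have hsq : ∀ i, B ⟨y i, o.mem i⟩ ⟨y i, o.mem i⟩ = s i := by
    intro i
    have h1 := hB ⟨y i, o.mem i⟩ ⟨y i, o.mem i⟩
    rw [o.sq] at h1
    exact_mod_cast h1
  refine ⟨⟨fun i => ?_, fun i j hij => ?_, fun u hu => ?_⟩, hsq⟩
  · rw [hsq]; exact o.ne i
  · have h1 := hB ⟨y i, o.mem i⟩ ⟨y j, o.mem j⟩
    rw [o.orth i j hij] at h1
    exact_mod_cast h1
  · have h1 := hB u u
    rw [o.max u u.2 (fun i => by rw [← hB u ⟨y i, o.mem i⟩, hu i, Rat.cast_zero])] at h1
    exact_mod_cast h1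

/-- The sum of the signs does not depend on the family. -/
theorem OMF.sum_eq (h : QF P b) {ι κ : Type} [Fintype ι] [Fintype κ] {y : ι → V} {s : ι → ℚ}
    {z : κ → V} {t : κ → ℚ} (o : OMF P b y s) (o' : OMF P b z t) :
    ∑ i, ((SignType.sign (s i) : SignType) : ℤ) = ∑ i, ((SignType.sign (t i) : SignType) : ℤ) := by
  letI := ratMod h.rs
  obtain ⟨B, hB⟩ := h.exists_form
  have hBs : ∀ x y, B x y = B y x := by
    intro x y
    have h1 : ((B x y : ℚ) : K) = ((B y x : ℚ) : K) := by
      rw [hB, hB, h.symm _ _ x.2 y.2]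
    exact_mod_cast h1
  obtain ⟨h1, h2⟩ := o.toOM h B hB
  obtain ⟨h3, h4⟩ := o'.toOM h B hB
  have e1 := h1.signature_eq hBs
  have e2 := h3.signature_eq hBs
  rw [e1] at e2
  simpa only [h2, h4] using e2

/-- The number of positive vectors does not depend on the family, and it is at most the size of
any family if the signs are counted. -/
theorem OMF.pos_eq (h : QF P b) {ι κ : Type} [Fintype ι] [Fintype κ] {y : ι → V} {s : ι → ℚ}
    {z : κ → V} {t : κ → ℚ} (o : OMF P b y s) (o' : OMF P b z t) :
    (univ.filter (fun i => 0 < s i)).card = (univ.filter (fun i => 0 < t i)).card := by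
  letI := ratMod h.rs
  obtain ⟨B, hB⟩ := h.exists_form
  have hBs : ∀ x y, B x y = B y x := by
    intro x y
    have h1 : ((B x y : ℚ) : K) = ((B y x : ℚ) : K) := by
      rw [hB, hB, h.symm _ _ x.2 y.2]
    exact_mod_cast h1
  obtain ⟨h1, h2⟩ := o.toOM h B hB
  obtain ⟨h3, h4⟩ := o'.toOM h B hB
  have e1 := h1.posIdx_eq hBs
  have e2 := h3.posIdx_eq hBs
  rw [e1] at e2
  simpa only [h2, h4] using e2

/-- Anisotropic orthogonal vectors are linearly independent. -/
lemma li_of_orth {ι : Type*} {y : ι → V} (hne : ∀ i, b (y i) (y i) ≠ 0)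
    (h : ∀ i j, i ≠ j → b (y i) (y j) = 0) : LinearIndependent K y := by
  classical
  rw [linearIndependent_iff']
  intro t g hg i hi
  have h1 := congrArg (fun u => b u (y i)) hg
  simp only [map_sum, LinearMap.sum_apply, map_smul, LinearMap.smul_apply, map_zero,
    LinearMap.zero_apply, smul_eq_mul] at h1
  rw [Finset.sum_eq_single i] at h1
  · exact (mul_eq_zero.1 h1).resolve_right (hne i)
  · intro j _ hj
    rw [h j i hj, mul_zero]
  · intro h0; exact absurd hi h0

/-- Existence of maximal orthogonal families. -/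
theorem exists_OMF [Module.Finite K V] (h : QF P b) :
    ∃ (m : ℕ) (y : Fin m → V) (s : Fin m → ℚ), OMF P b y s := by
  letI := ratMod h.rs
  obtain ⟨B, hB⟩ := h.exists_form
  have hBs : ∀ x y, B x y = B y x := by
    intro x y
    have h1 : ((B x y : ℚ) : K) = ((B y x : ℚ) : K) := by
      rw [hB, hB, h.symm _ _ x.2 y.2]
    exact_mod_cast h1
  obtain ⟨m, x, hx⟩ := exists_OM hBs (N := Module.finrank K V) (by
    intro m x h1 h2
    have h3 : LinearIndependent K (fun i => (x i : V)) := by
      apply li_of_orth (b := b)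
      · intro i h0
        apply h1 i
        have := hB (x i) (x i)
        rw [h0] at this
        exact_mod_cast this
      · intro i j hij
        rw [← hB, h2 i j hij, Rat.cast_zero]
    have := h3.fintype_card_le_finrank
    rwa [Fintype.card_fin] at this)
  refine ⟨m, fun i => (x i : V), fun i => B (x i) (x i), ⟨fun i => (x i).2, hx.ne,
    fun i => (hB _ _).symm, fun i j hij => ?_, fun u hu hui => ?_⟩⟩
  · rw [← hB, hx.orth i j hij, Rat.cast_zero]
  · have h1 := hx.max ⟨u, hu⟩ (fun i => by
      have h2 := hB ⟨u, hu⟩ (x i)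
      rw [hui i] at h2
      exact_mod_cast h2)
    have h2 := hB ⟨u, hu⟩ ⟨u, hu⟩
    rw [h1, Rat.cast_zero] at h2
    exact h2.symm

/-- The form cut down by an operator. -/
noncomputable def cut (b : V →ₗ[K] V →ₗ[K] K) (e : Module.End K V) : V →ₗ[K] V →ₗ[K] K :=
  b.compl₁₂ e e

lemma cut_apply (e : Module.End K V) (x y : V) : cut b e x y = b (e x) (e y) := rfl

lemma QF.cut (h : QF P b) {e : Module.End K V} (he : ∀ x, P x → P (e x)) : QF P (cut b e) where
  rs := h.rs
  rat x y hx hy := h.rat _ _ (he x hx) (he y hy)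
  symm x y hx hy := h.symm _ _ (he x hx) (he y hy)

/-- The size of an orthogonal family of the form cut down by an operator. -/
lemma card_le_rank [Module.Finite K V] {e : Module.End K V} {ι : Type} [Fintype ι] {y : ι → V}
    {s : ι → ℚ} (o : OMF P (cut b e) y s) :
    Fintype.card ι ≤ Module.finrank K (LinearMap.range e) := by
  have h1 : LinearIndependent K (fun i => (⟨e (y i), y i, rfl⟩ : LinearMap.range e)) := by
    have h2 : LinearIndependent K (fun i => e (y i)) := by
      apply li_of_orth (b := b)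
      · intro i
        have := o.sq i
        rw [cut_apply] at this
        rw [this]
        exact_mod_cast o.ne i
      · intro i j hij
        exact o.orth i j hij
    exact LinearIndependent.of_comp (LinearMap.range e).subtype h2
  exact h1.fintype_card_le_finrank

/-- Two orthogonal idempotents interchanged by a similitude of factor `c`. -/
structure Quad (P : V → Prop) (b : V →ₗ[K] V →ₗ[K] K) (p q t t' : Module.End K V) (c : ℚ) :
    Prop where
  Pp : ∀ x, P x → P (p x)
  Pq : ∀ x, P x → P (q x)
  Pt : ∀ x, P x → P (t x)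
  Pt' : ∀ x, P x → P (t' x)
  adj_p : ∀ x y, b (p x) y = b x (p y)
  adj_q : ∀ x y, b (q x) y = b x (q y)
  adj_t : ∀ x y, b (t x) y = b x (t' y)
  adj_t' : ∀ x y, b (t' x) y = b x (t y)
  pp : p * p = p
  qq : q * q = q
  pq : p * q = 0
  qp : q * p = 0
  tp : t * p = t
  qt : q * t = t
  pt' : p * t' = t'
  t'q : t' * q = t'
  t't : t' * t = (c : K) • p
  tt' : t * t' = (c : K) • q
  neg : c < 0

/-- **Cutting down by the complement of a pair of idempotents interchanged by a similitude with
negative factor does not change the signature.** -/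
theorem Quad.sum_eq [Module.Finite K V] (h : QF P b) {e p q t t' : Module.End K V} {c : ℚ}
    (Q : Quad P b p q t t' c) (Pe : ∀ x, P x → P (e x)) (adj_e : ∀ x y, b (e x) y = b x (e y))
    (ee : e * e = e) (cp : Commute e p) (cq : Commute e q) (ct : Commute e t)
    (ct' : Commute e t') {ι κ : Type} [Fintype ι] [Fintype κ] {y : ι → V} {s : ι → ℚ}
    (o : OMF P (cut b e) y s) {z : κ → V} {r : κ → ℚ}
    (o' : OMF P (cut b (e * (1 - p - q))) z r) :
    ∑ i, ((SignType.sign (s i) : SignType) : ℤ) = ∑ i, ((SignType.sign (r i) : SignType) : ℤ) := by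
  classical
  set g : Module.End K V := e * (1 - p - q) with hg
  have hgx : ∀ x, g x = e x - e (p x) - e (q x) := by
    intro x
    rw [hg, Module.End.mul_apply, LinearMap.sub_apply, LinearMap.sub_apply, Module.End.one_apply,
      map_sub, map_sub]
  have hcp : ∀ x, e (p x) = p (e x) := fun x => congrArg (fun F => F x) cp.eq
  have hcq : ∀ x, e (q x) = q (e x) := fun x => congrArg (fun F => F x) cq.eq
  have hct : ∀ x, e (t x) = t (e x) := fun x => congrArg (fun F => F x) ct.eq
  have hct' : ∀ x, e (t' x) = t' (e x) := fun x => congrArg (fun F => F x) ct'.eq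
  have hee : ∀ x, e (e x) = e x := fun x => congrArg (fun F => F x) ee
  have hpp : ∀ x, p (p x) = p x := fun x => congrArg (fun F => F x) Q.pp
  have hqq : ∀ x, q (q x) = q x := fun x => congrArg (fun F => F x) Q.qq
  have hpq : ∀ x, p (q x) = 0 := fun x => congrArg (fun F => F x) Q.pq
  have hqp : ∀ x, q (p x) = 0 := fun x => congrArg (fun F => F x) Q.qp
  have htp : ∀ x, t (p x) = t x := fun x => congrArg (fun F => F x) Q.tp
  have hqt : ∀ x, q (t x) = t x := fun x => congrArg (fun F => F x) Q.qt
  have hpt' : ∀ x, p (t' x) = t' x := fun x => congrArg (fun F => F x) Q.pt'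
  have ht'q : ∀ x, t' (q x) = t' x := fun x => congrArg (fun F => F x) Q.t'q
  have ht't : ∀ x, t' (t x) = (c : K) • p x := fun x => congrArg (fun F => F x) Q.t't
  have htt' : ∀ x, t (t' x) = (c : K) • q x := fun x => congrArg (fun F => F x) Q.tt'
  have hc0 : (c : K) ≠ 0 := by exact_mod_cast Q.neg.ne
  -- a maximal family for the part of `p`
  have hPep : ∀ x, P x → P ((e * p) x) := fun x hx => Pe _ (Q.Pp _ hx)
  obtain ⟨m, w, σ, ow⟩ := exists_OMF (h.cut hPep)
  have hep : ∀ x, (e * p) x = e (p x) := fun x => rfl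
  have Pg : ∀ x, P x → P (g x) := by
    intro x hx
    rw [hgx]
    exact h.rs.sub (h.rs.sub (Pe _ hx) (Pe _ (Q.Pp _ hx))) (Pe _ (Q.Pq _ hx))
  have heg : ∀ x, e (g x) = g x := by
    intro x
    rw [hgx, map_sub, map_sub, hee, hee, hee]
  have hpg : ∀ x, p (g x) = 0 := by
    intro x
    rw [hgx, map_sub, map_sub, ← hcp, ← hcp, ← hcp, hpp, hpq, map_zero]
    simp
  have hqg : ∀ x, q (g x) = 0 := by
    intro x
    rw [hgx, map_sub, map_sub, ← hcq, ← hcq, ← hcq, hqq, hqp, map_zero]
    simp
  have hbg : ∀ x y, b (g x) y = b x (g y) := by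
    intro x y
    rw [hgx, hgx, map_sub, map_sub, LinearMap.sub_apply, LinearMap.sub_apply, map_sub, map_sub,
      adj_e, adj_e, Q.adj_p, adj_e, Q.adj_q, ← hcp, ← hcq]
  have hggx : ∀ x, g (g x) = g x := by
    intro x
    rw [hgx (g x), heg, hpg, hqg]
    simp
  have hgex : ∀ x, g (e x) = g x := by
    intro x
    rw [hgx, hgx, hee, ← hcp, ← hcq, hee, hee]
  -- the products
  have F2 : ∀ x y, b (e (t x)) (e (t y)) = (c : K) * b (e (p x)) (e (p y)) := by
    intro x y
    rw [hct x, Q.adj_t, ← hct', ht't, map_smul, map_smul, smul_eq_mul, hcp x, Q.adj_p, ← hcp,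
      hpp]
  have F3 : ∀ x y, b (g x) (e (p y)) = 0 := by
    intro x y
    rw [hcp, ← Q.adj_p, hpg, map_zero, LinearMap.zero_apply]
  have F3' : ∀ x y, b (e (p x)) (g y) = 0 := by
    intro x y
    rw [hcp, Q.adj_p, hpg, map_zero]
  have F4 : ∀ x y, b (g x) (e (t y)) = 0 := by
    intro x y
    rw [← hqt, hcq, ← Q.adj_q, hqg, map_zero, LinearMap.zero_apply]
  have F4' : ∀ x y, b (e (t x)) (g y) = 0 := by
    intro x y
    rw [← hqt, hcq, Q.adj_q, hqg, map_zero]
  have F5 : ∀ x y, b (e (p x)) (e (t y)) = 0 := by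
    intro x y
    rw [← hqt, hcq, ← Q.adj_q, ← hcq, hqp, map_zero, map_zero, LinearMap.zero_apply]
  have F5' : ∀ x y, b (e (t x)) (e (p y)) = 0 := by
    intro x y
    rw [← hqt, hcq, Q.adj_q, ← hcq, hqp, map_zero, map_zero]
  -- the family
  let Y : κ ⊕ (Fin m ⊕ Fin m) → V :=
    Sum.elim (fun i => g (z i)) (Sum.elim (fun j => e (p (w j))) (fun j => e (t (w j))))
  let S : κ ⊕ (Fin m ⊕ Fin m) → ℚ := Sum.elim r (Sum.elim σ (fun j => c * σ j))
  have O : OMF P (cut b e) Y S := by
    refine ⟨?_, ?_, ?_, ?_, ?_⟩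
    · rintro (i | j | j)
      · exact Pg _ (o'.mem i)
      · exact Pe _ (Q.Pp _ (ow.mem j))
      · exact Pe _ (Q.Pt _ (ow.mem j))
    · rintro (i | j | j)
      · exact o'.ne i
      · exact ow.ne j
      · exact mul_ne_zero Q.neg.ne (ow.ne j)
    · rintro (i | j | j)
      · change b (e (g (z i))) (e (g (z i))) = (r i : K)
        rw [heg]
        exact o'.sq i
      · change b (e (e (p (w j)))) (e (e (p (w j)))) = (σ j : K)
        rw [hee]
        exact ow.sq j
      · change b (e (e (t (w j)))) (e (e (t (w j)))) = ((c * σ j : ℚ) : K)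
        rw [hee, F2, Rat.cast_mul]
        congr 1
        exact ow.sq j
    · rintro (i | j | j) (i' | j' | j') hne
      · change b (e (g (z i))) (e (g (z i'))) = 0
        rw [heg, heg]
        exact o'.orth i i' (fun h0 => hne (by rw [h0]))
      · change b (e (g (z i))) (e (e (p (w j')))) = 0
        rw [heg, hee]
        exact F3 _ _
      · change b (e (g (z i))) (e (e (t (w j')))) = 0
        rw [heg, hee]
        exact F4 _ _
      · change b (e (e (p (w j)))) (e (g (z i'))) = 0
        rw [heg, hee]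
        exact F3' _ _
      · change b (e (e (p (w j)))) (e (e (p (w j')))) = 0
        rw [hee, hee]
        exact ow.orth j j' (fun h0 => hne (by rw [h0]))
      · change b (e (e (p (w j)))) (e (e (t (w j')))) = 0
        rw [hee, hee]
        exact F5 _ _
      · change b (e (e (t (w j)))) (e (g (z i'))) = 0
        rw [heg, hee]
        exact F4' _ _
      · change b (e (e (t (w j)))) (e (e (p (w j')))) = 0
        rw [hee, hee]
        exact F5' _ _
      · change b (e (e (t (w j)))) (e (e (t (w j')))) = 0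
        rw [hee, hee, F2]
        have h1 : b (e (p (w j))) (e (p (w j'))) = 0 :=
          ow.orth j j' (fun h0 => hne (by rw [h0]))
        rw [h1, mul_zero]
    · intro u hu hY
      have H1 : ∀ i, b (e u) (g (z i)) = 0 := by
        intro i
        have := hY (Sum.inl i)
        change b (e u) (e (g (z i))) = 0 at this
        rwa [heg] at this
      have H2 : ∀ j, b (e u) (e (p (w j))) = 0 := by
        intro j
        have := hY (Sum.inr (Sum.inl j))
        change b (e u) (e (e (p (w j)))) = 0 at this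
        rwa [hee] at this
      have H3 : ∀ j, b (e u) (e (t (w j))) = 0 := by
        intro j
        have := hY (Sum.inr (Sum.inr j))
        change b (e u) (e (e (t (w j)))) = 0 at this
        rwa [hee] at this
      have E1 : b (e u) (g u) = 0 := by
        have h1 : b (g u) (g u) = 0 := by
          refine o'.max u hu (fun i => ?_)
          change b (g u) (g (z i)) = 0
          rw [← hgex u, hbg, hggx]
          exact H1 i
        rw [← hggx u, ← hbg, hgex]
        exact h1
      have E2 : b (e u) (e (p u)) = 0 := by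
        have h1 : b (e (p u)) (e (p u)) = 0 := by
          refine ow.max u hu (fun j => ?_)
          change b (e (p u)) (e (p (w j))) = 0
          rw [hcp u, Q.adj_p, ← hcp, hpp]
          exact H2 j
        rw [hcp u, Q.adj_p, hpp, ← hcp] at h1
        exact h1
      have E3 : b (e u) (e (q u)) = 0 := by
        have h1 : b (e (p (t' u))) (e (p (t' u))) = 0 := by
          refine ow.max (t' u) (Q.Pt' _ hu) (fun j => ?_)
          change b (e (p (t' u))) (e (p (w j))) = 0
          rw [hpt', hct', Q.adj_t', ← hct, htp]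
          exact H3 j
        rw [hpt', hct', Q.adj_t', ← hct', ← hct, htt', map_smul, map_smul, smul_eq_mul] at h1
        exact (mul_eq_zero.1 h1).resolve_left hc0
      change b (e u) (e u) = 0
      have h1 : e u = g u + e (p u) + e (q u) := by rw [hgx]; abel
      have h2 : b (e u) (e u) = b (e u) (g u + e (p u) + e (q u)) := by rw [← h1]
      rw [h2, map_add, map_add, E1, E2, E3, add_zero, add_zero]
  rw [o.sum_eq (h.cut Pe) O, Fintype.sum_sum_type, Fintype.sum_sum_type]
  change (∑ i, ((SignType.sign (r i) : SignType) : ℤ)) + (∑ j, ((SignType.sign (σ j) : SignType) : ℤ) +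
    ∑ j, ((SignType.sign (c * σ j) : SignType) : ℤ)) = _
  have h1 : ∑ j, ((SignType.sign (c * σ j) : SignType) : ℤ) =
      -∑ j, ((SignType.sign (σ j) : SignType) : ℤ) := by
    rw [← Finset.sum_neg_distrib]
    apply Finset.sum_congr rfl
    intro j _
    rw [sign_mul, sign_neg Q.neg]
    simp
  rw [h1]
  ring

end Pool.Agent.W5h89.Half
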