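import Pool.Agent.W539.Ker.Fam
import Pool.Agent.W539.Ker.Ops
import Pool.Agent.W5h89.Half.Sgn

/-!
# Chains of idempotents on products, and the bound for the signature
-/

open CategoryTheory AlgebraicGeometry Finset

universe u v

namespace Pool.Agent.W5h89.Half

open Pool.Agent.H914 Pool.Agent.H914.VarClass Pool.Agent.H914.VarClass.Obj
  Pool.Agent.H914.WeilCohomology Pool.Agent.H281R3.HT Pool.Agent.W552 Pool.Agent.W539.Ker

variable {k : Type u} [Field k] {𝒱 : VarClass k} {ops : CycleOps 𝒱}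
  {W : WeilCohomology.{u, v} ops} {X Y Z : 𝒱.Obj}

/-- The algebraic classes of weight `m`. -/
def PW (W : WeilCohomology.{u, v} ops) (X : 𝒱.Obj) (m : ℤ) (x : W.H X) : Prop :=
  AS W X x ∧ wt (W.isInternal X) X.dim x = (m : W.K) • x

lemma par_AS {x : W.H X} (hx : AS W X x) : par (W.isInternal X) x = x := by
  refine AS.ind (p := fun y => par (W.isInternal X) y = y) ?_ ?_ hx
  · intro j y hy
    rw [par, scal_apply _ _ (alg_gr hy), pow_mul]
    simp
  · intro y y' hy hy'
    rw [map_add, hy, hy']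

lemma Sy.alg {D : X.Cycles} {f : Module.End W.K (W.H X)} (h : Sy W X D f) {x : W.H X}
    (hx : AS W X x) (y : W.H X) : bf W X D f y x = bf W X D f x y := by
  rw [h y x, par_AS hx]

lemma qf_PW {D : X.Cycles} {f : Module.End W.K (W.H X)} (F : Fr W X D f) (h : Sy W X D f)
    (m : ℤ) : QF (PW W X m) (bf W X D f) where
  rs := {
    zero := ⟨AS.zero, by rw [map_zero, smul_zero]⟩
    add := fun hx hy => ⟨hx.1.add hy.1, by rw [map_add, hx.2, hy.2, smul_add]⟩
    smul := fun q x hx => ⟨hx.1.smul q, by rw [map_smul, hx.2, smul_comm]⟩ }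
  rat x y hx hy := F.bf_rat hx.1 hy.1
  symm x y hx hy := (Sy.alg h hx.1 y).symm

/-- Algebraic operators of degree zero. -/
structure Op0 (W : WeilCohomology.{u, v} ops) (X : 𝒱.Obj) (u : Module.End W.K (W.H X)) :
    Prop where
  alg : AOp W X X u
  com : Commute u (wt (W.isInternal X) X.dim)

lemma Op0.apply {u : Module.End W.K (W.H X)} (h : Op0 W X u) {m : ℤ} {x : W.H X}
    (hx : PW W X m x) : PW W X m (u x) := by
  refine ⟨h.alg.apply hx.1, ?_⟩
  have h1 : u (wt (W.isInternal X) X.dim x) = wt (W.isInternal X) X.dim (u x) :=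
    congrArg (fun F => F x) h.com.eq
  rw [← h1, hx.2, map_smul]

lemma Op0.one : Op0 W X 1 := ⟨AOp.one, Commute.one_left _⟩

lemma Op0.mul {u u' : Module.End W.K (W.H X)} (h : Op0 W X u) (h' : Op0 W X u') :
    Op0 W X (u * u') := ⟨h.alg.mul h'.alg, h.com.mul_left h'.com⟩

lemma Op0.sub {u u' : Module.End W.K (W.H X)} (h : Op0 W X u) (h' : Op0 W X u') :
    Op0 W X (u - u') := ⟨AOp.ratSub.sub h.alg h'.alg, h.com.sub_left h'.com⟩

/-- Two algebraic orthogonal idempotents interchanged by a similitude of factor `c < 0`. -/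
structure GQ (W : WeilCohomology.{u, v} ops) (X : 𝒱.Obj) (D : X.Cycles)
    (f p q t t' : Module.End W.K (W.H X)) (c : ℚ) : Prop where
  op : Op0 W X p
  oq : Op0 W X q
  ot : Op0 W X t
  ot' : Op0 W X t'
  adj_p : ∀ x y, bf W X D f (p x) y = bf W X D f x (p y)
  adj_q : ∀ x y, bf W X D f (q x) y = bf W X D f x (q y)
  adj_t : ∀ x y, bf W X D f (t x) y = bf W X D f x (t' y)
  adj_t' : ∀ x y, bf W X D f (t' x) y = bf W X D f x (t y)
  pp : p * p = p
  qq : q * q = q
  pq : p * q = 0
  qp : q * p = 0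
  tp : t * p = t
  qt : q * t = t
  pt' : p * t' = t'
  t'q : t' * q = t'
  t't : t' * t = (c : W.K) • p
  tt' : t * t' = (c : W.K) • q
  neg : c < 0

lemma GQ.quad {D : X.Cycles} {f p q t t' : Module.End W.K (W.H X)} {c : ℚ}
    (Q : GQ W X D f p q t t' c) (m : ℤ) : Quad (PW W X m) (bf W X D f) p q t t' c where
  Pp _ hx := Q.op.apply hx
  Pq _ hx := Q.oq.apply hx
  Pt _ hx := Q.ot.apply hx
  Pt' _ hx := Q.ot'.apply hx
  adj_p := Q.adj_p
  adj_q := Q.adj_q
  adj_t := Q.adj_t
  adj_t' := Q.adj_t'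
  pp := Q.pp
  qq := Q.qq
  pq := Q.pq
  qp := Q.qp
  tp := Q.tp
  qt := Q.qt
  pt' := Q.pt'
  t'q := Q.t'q
  t't := Q.t't
  tt' := Q.tt'
  neg := Q.neg

/-- Products of the complements of pairs of idempotents. -/
inductive Chain (W : WeilCohomology.{u, v} ops) (X : 𝒱.Obj) (D : X.Cycles)
    (f : Module.End W.K (W.H X)) : Module.End W.K (W.H X) → Prop
  | one : Chain W X D f 1
  | step {e p q t t' : Module.End W.K (W.H X)} {c : ℚ} (he : Chain W X D f e)
      (Q : GQ W X D f p q t t' c) (cp : Commute e p) (cq : Commute e q) (ct : Commute e t)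
      (ct' : Commute e t') : Chain W X D f (e * (1 - p - q))

lemma Chain.good {D : X.Cycles} {f e : Module.End W.K (W.H X)} (h : Chain W X D f e) :
    Op0 W X e ∧ (∀ x y, bf W X D f (e x) y = bf W X D f x (e y)) ∧ e * e = e := by
  induction h with
  | one => exact ⟨Op0.one, fun x y => rfl, mul_one 1⟩
  | @step e p q t t' c he Q cp cq ct ct' ih =>
    obtain ⟨h1, h2, h3⟩ := ih
    have cpq : Commute e (1 - p - q) := ((Commute.one_right e).sub_right cp).sub_right cq
    refine ⟨h1.mul ((Op0.one.sub Q.op).sub Q.oq), ?_, ?_⟩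
    · intro x y
      have h4 : (e * (1 - p - q)) y = (1 - p - q) (e y) := by rw [cpq.eq]; rfl
      rw [h4, Module.End.mul_apply, h2]
      simp only [LinearMap.sub_apply, Module.End.one_apply, map_sub]
      rw [Q.adj_p, Q.adj_q]
    · have h4 : (1 - p - q) * (1 - p - q) = 1 - p - q := by
        simp only [sub_mul, mul_sub, one_mul, mul_one, Q.pp, Q.qq, Q.pq, Q.qp]
        abel
      calc e * (1 - p - q) * (e * (1 - p - q)) =
          e * ((1 - p - q) * e) * (1 - p - q) := by noncomm_ring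
        _ = e * (e * (1 - p - q)) * (1 - p - q) := by rw [cpq.eq]
        _ = (e * e) * ((1 - p - q) * (1 - p - q)) := by noncomm_ring
        _ = _ := by rw [h3, h4]

/-- The signature is not changed by a chain. -/
theorem Chain.sum_eq {D : X.Cycles} {f e : Module.End W.K (W.H X)} (F : Fr W X D f)
    (hS : Sy W X D f) (h : Chain W X D f e) (m : ℤ) {ι : Type} [Fintype ι] {y : ι → W.H X}
    {s : ι → ℚ} (o : OMF (PW W X m) (bf W X D f) y s) {κ : Type} [Fintype κ] {z : κ → W.H X}
    {r : κ → ℚ} (o' : OMF (PW W X m) (cut (bf W X D f) e) z r) :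
    ∑ i, ((SignType.sign (s i) : SignType) : ℤ) = ∑ i, ((SignType.sign (r i) : SignType) : ℤ) := by
  induction h generalizing κ z r with
  | one => exact o.sum_eq (qf_PW F hS m) o'
  | @step e p q t t' c he Q cp cq ct ct' ih =>
    obtain ⟨h1, h2, h3⟩ := he.good
    obtain ⟨N, w, σ, ow⟩ := exists_OMF ((qf_PW F hS m).cut (e := e) (fun x hx => h1.apply hx))
    rw [ih ow]
    exact (Q.quad m).sum_eq (qf_PW F hS m) (fun x hx => h1.apply hx) h2 h3 cp cq ct ct' ow o'

/-- **The bound for the signature.** -/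
theorem Chain.bound {D : X.Cycles} {f e : Module.End W.K (W.H X)} (F : Fr W X D f)
    (hS : Sy W X D f) (h : Chain W X D f e) (m : ℤ) :
    |wsum X.dim (sig W X D) m| ≤ Module.finrank W.K (LinearMap.range e) := by
  obtain ⟨ι, hι, y, s, h1, h2, h3, h4, h5, h6, h7⟩ := exists_fam F m
  have o : OMF (PW W X m) (bf W X D f) y s :=
    ⟨fun i => ⟨h1 i, h2 i⟩, h3, h4, h5, fun u hu => h6 u hu.1 hu.2⟩
  obtain ⟨N, z, r, o'⟩ := exists_OMF ((qf_PW F hS m).cut (e := e)
    (fun x hx => h.good.1.apply hx))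
  rw [← h7, h.sum_eq F hS m o o']
  have h8 := card_le_rank o'
  rw [Fintype.card_fin] at h8
  calc |∑ i, ((SignType.sign (r i) : SignType) : ℤ)| ≤ ∑ i : Fin N, |((SignType.sign (r i) : SignType) : ℤ)| :=
        Finset.abs_sum_le_sum_abs _ _
    _ ≤ ∑ _i : Fin N, (1 : ℤ) := by
        apply Finset.sum_le_sum
        intro i _
        rcases lt_trichotomy (r i) 0 with h0 | h0 | h0
        · rw [sign_neg h0]; simp
        · rw [h0, sign_zero]; simp
        · rw [sign_pos h0]; simp
    _ = N := by simp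
    _ ≤ _ := by exact_mod_cast h8

section Prod

variable {D : X.Cycles} {f : Module.End W.K (W.H X)} {E : Y.Cycles}
  {g : Module.End W.K (W.H Y)}

lemma Op0.extOp {u : Module.End W.K (W.H X)} {u' : Module.End W.K (W.H Y)} (h : Op0 W X u)
    (h' : Op0 W Y u') : Op0 W (X.prod Y) (extOp W u u') := by
  refine ⟨h.alg.ext h'.alg, ?_⟩
  rw [wt_prod, extSum, extL_apply, extR_apply]
  apply Commute.add_right
  · change _ * _ = _ * _
    rw [extOp_mul, extOp_mul, h.com.eq, mul_one, one_mul]
  · change _ * _ = _ * _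
    rw [extOp_mul, extOp_mul, h'.com.eq, mul_one, one_mul]

lemma extOp_comm {u v : Module.End W.K (W.H X)} {u' v' : Module.End W.K (W.H Y)}
    (h : Commute u v) (h' : Commute u' v') : Commute (extOp W u u') (extOp W v v') := by
  change _ * _ = _ * _
  rw [extOp_mul, extOp_mul, h.eq, h'.eq]

lemma adj_ext (F : Fr W X D f) (G : Fr W Y E g) {u v : Module.End W.K (W.H X)}
    {u' v' : Module.End W.K (W.H Y)} (h : ∀ x y, bf W X D f (u x) y = bf W X D f x (v y))
    (h' : ∀ x y, bf W Y E g (u' x) y = bf W Y E g x (v' y)) (x y : W.H (X.prod Y)) :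
    bf W (X.prod Y) (ops.pull (fst X Y) D + ops.pull (snd X Y) E) (extSum W f g)
      (extOp W u u' x) y =
    bf W (X.prod Y) (ops.pull (fst X Y) D + ops.pull (snd X Y) E) (extSum W f g)
      x (extOp W v v' y) := by
  refine W.kunneth_induction (p := fun x => bf W (X.prod Y)
    (ops.pull (fst X Y) D + ops.pull (snd X Y) E) (extSum W f g) (extOp W u u' x) y =
    bf W (X.prod Y) (ops.pull (fst X Y) D + ops.pull (snd X Y) E) (extSum W f g)
      x (extOp W v v' y)) ?_ ?_ x
  · intro x x' hx hx'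
    rw [map_add, map_add, LinearMap.add_apply, hx, hx', map_add, LinearMap.add_apply]
  intro i j a _ b _
  refine W.kunneth_induction (p := fun y => bf W (X.prod Y)
    (ops.pull (fst X Y) D + ops.pull (snd X Y) E) (extSum W f g) (extOp W u u' _) y =
    bf W (X.prod Y) (ops.pull (fst X Y) D + ops.pull (snd X Y) E) (extSum W f g)
      _ (extOp W v v' y)) ?_ ?_ y
  · intro x x' hx hx'
    rw [map_add, map_add, map_add, hx, hx']
  intro i' j' a' _ b' _
  rw [extOp_tmul, extOp_tmul]
  have e1 := F.bf_ext G (u a) a' (u' b) b'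
  have e2 := F.bf_ext G a (v a') b (v' b')
  rw [H281R3.HT.ext, H281R3.HT.ext] at e1 e2
  rw [e1, e2, h, h']

lemma GQ.extL (F : Fr W X D f) (G : Fr W Y E g) {p q t t' : Module.End W.K (W.H X)} {c : ℚ}
    (Q : GQ W X D f p q t t' c) : GQ W (X.prod Y)
      (ops.pull (fst X Y) D + ops.pull (snd X Y) E) (extSum W f g)
      (extOp W p 1) (extOp W q 1) (extOp W t 1) (extOp W t' 1) c where
  op := Q.op.extOp Op0.one
  oq := Q.oq.extOp Op0.one
  ot := Q.ot.extOp Op0.one
  ot' := Q.ot'.extOp Op0.one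
  adj_p := adj_ext F G Q.adj_p (fun _ _ => rfl)
  adj_q := adj_ext F G Q.adj_q (fun _ _ => rfl)
  adj_t := adj_ext F G Q.adj_t (fun _ _ => rfl)
  adj_t' := adj_ext F G Q.adj_t' (fun _ _ => rfl)
  pp := by rw [extOp_mul, Q.pp, mul_one]
  qq := by rw [extOp_mul, Q.qq, mul_one]
  pq := by rw [extOp_mul, Q.pq, extOp_zero_left]
  qp := by rw [extOp_mul, Q.qp, extOp_zero_left]
  tp := by rw [extOp_mul, Q.tp, mul_one]
  qt := by rw [extOp_mul, Q.qt, mul_one]
  pt' := by rw [extOp_mul, Q.pt', mul_one]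
  t'q := by rw [extOp_mul, Q.t'q, mul_one]
  t't := by rw [extOp_mul, Q.t't, mul_one, extOp_smul_left]
  tt' := by rw [extOp_mul, Q.tt', mul_one, extOp_smul_left]
  neg := Q.neg

lemma GQ.extR (F : Fr W X D f) (G : Fr W Y E g) {p q t t' : Module.End W.K (W.H Y)} {c : ℚ}
    (Q : GQ W Y E g p q t t' c) : GQ W (X.prod Y)
      (ops.pull (fst X Y) D + ops.pull (snd X Y) E) (extSum W f g)
      (extOp W 1 p) (extOp W 1 q) (extOp W 1 t) (extOp W 1 t') c where
  op := Op0.one.extOp Q.op
  oq := Op0.one.extOp Q.oq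
  ot := Op0.one.extOp Q.ot
  ot' := Op0.one.extOp Q.ot'
  adj_p := adj_ext F G (fun _ _ => rfl) Q.adj_p
  adj_q := adj_ext F G (fun _ _ => rfl) Q.adj_q
  adj_t := adj_ext F G (fun _ _ => rfl) Q.adj_t
  adj_t' := adj_ext F G (fun _ _ => rfl) Q.adj_t'
  pp := by rw [extOp_mul, Q.pp, mul_one]
  qq := by rw [extOp_mul, Q.qq, mul_one]
  pq := by rw [extOp_mul, Q.pq, extOp_zero_right]
  qp := by rw [extOp_mul, Q.qp, extOp_zero_right]
  tp := by rw [extOp_mul, Q.tp, mul_one]
  qt := by rw [extOp_mul, Q.qt, mul_one]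
  pt' := by rw [extOp_mul, Q.pt', mul_one]
  t'q := by rw [extOp_mul, Q.t'q, mul_one]
  t't := by rw [extOp_mul, Q.t't, mul_one, extOp_smul_right]
  tt' := by rw [extOp_mul, Q.tt', mul_one, extOp_smul_right]
  neg := Q.neg

lemma extOp_sub_left (φ φ' : Module.End W.K (W.H X)) (ψ : Module.End W.K (W.H Y)) :
    extOp W (φ - φ') ψ = extOp W φ ψ - extOp W φ' ψ := by
  rw [eq_sub_iff_add_eq, ← extOp_add_left, sub_add_cancel]

lemma extOp_sub_right (φ : Module.End W.K (W.H X)) (ψ ψ' : Module.End W.K (W.H Y)) :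
    extOp W φ (ψ - ψ') = extOp W φ ψ - extOp W φ ψ' := by
  rw [eq_sub_iff_add_eq, ← extOp_add_right, sub_add_cancel]

/-- Chains on the second factor. -/
lemma Chain.extR (F : Fr W X D f) (G : Fr W Y E g) {e : Module.End W.K (W.H Y)}
    (h : Chain W Y E g e) : Chain W (X.prod Y)
      (ops.pull (fst X Y) D + ops.pull (snd X Y) E) (extSum W f g) (extOp W 1 e) := by
  induction h with
  | one => rw [extOp_one]; exact Chain.one
  | @step e p q t t' c he Q cp cq ct ct' ih =>
    have h1 := Chain.step ih (Q.extR F G) (extOp_comm (Commute.refl _) cp)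
      (extOp_comm (Commute.refl _) cq) (extOp_comm (Commute.refl _) ct)
      (extOp_comm (Commute.refl _) ct')
    rw [← extOp_one (W := W) (Y := X) (Z := Y), ← extOp_sub_right, ← extOp_sub_right, extOp_mul,
      one_mul] at h1
    exact h1

/-- Adding a quadruple on the first factor. -/
lemma Chain.prod (F : Fr W X D f) (G : Fr W Y E g) {e : Module.End W.K (W.H Y)}
    (h : Chain W Y E g e) {p q t t' : Module.End W.K (W.H X)} {c : ℚ}
    (Q : GQ W X D f p q t t' c) : Chain W (X.prod Y)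
      (ops.pull (fst X Y) D + ops.pull (snd X Y) E) (extSum W f g)
      (extOp W (1 - p - q) e) := by
  have h1 := Chain.step (h.extR F G) (Q.extL F G) (extOp_comm (Commute.one_left _)
    (Commute.one_right _)) (extOp_comm (Commute.one_left _) (Commute.one_right _))
    (extOp_comm (Commute.one_left _) (Commute.one_right _))
    (extOp_comm (Commute.one_left _) (Commute.one_right _))
  rw [← extOp_one (W := W) (Y := X) (Z := Y), ← extOp_sub_left, ← extOp_sub_left, extOp_mul,
    one_mul, mul_one] at h1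
  exact h1

/-- The rank of an external product. -/
lemma finrank_range_extOp (u : Module.End W.K (W.H X)) (u' : Module.End W.K (W.H Y)) :
    Module.finrank W.K (LinearMap.range (extOp W u u')) ≤
      Module.finrank W.K (LinearMap.range u) * Module.finrank W.K (LinearMap.range u') := by
  have h1 : LinearMap.range (extOp W u u') ≤ LinearMap.range ((kappa W X Y).toLinearMap ∘ₗ
      TensorProduct.map (LinearMap.range u).subtype (LinearMap.range u').subtype) := by
    rintro _ ⟨x, rfl⟩
    refine W.kunneth_induction (p := fun x => extOp W u u' x ∈ LinearMap.range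
      ((kappa W X Y).toLinearMap ∘ₗ
      TensorProduct.map (LinearMap.range u).subtype (LinearMap.range u').subtype)) ?_ ?_ x
    · intro a b ha hb
      rw [map_add]; exact Submodule.add_mem _ ha hb
    · intro i j a _ b _
      refine ⟨(⟨u a, a, rfl⟩ : LinearMap.range u) ⊗ₜ[W.K] (⟨u' b, b, rfl⟩ : LinearMap.range u'), ?_⟩
      rw [LinearMap.comp_apply, TensorProduct.map_tmul, LinearEquiv.coe_coe, kappa_tmul,
        extOp_tmul]
      rfl
  refine (Submodule.finrank_mono h1).trans ((LinearMap.finrank_range_le _).trans ?_)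
  rw [Module.finrank_tensorProduct]

end Prod

end Pool.Agent.W5h89.Half
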