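import Pool.Agent.W5h89.Half.Defs
import Pool.Agent.W5h89.Half.GdProd
import Pool.Agent.W539.Ker.Lef

/-!
# Isomorphisms of polarized varieties
-/

open CategoryTheory AlgebraicGeometry Finset

universe u v

namespace Pool.Agent.W5h89.Half

open Pool.Agent.H914 Pool.Agent.H914.VarClass Pool.Agent.H914.VarClass.Obj
  Pool.Agent.H914.WeilCohomology Pool.Agent.H281R3.HT Pool.Agent.W552 Pool.Agent.W539.Ker

variable {k : Type u} [Field k] {𝒱 : VarClass k} {ops : CycleOps 𝒱}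
  {W : WeilCohomology.{u, v} ops} {X Y Z : 𝒱.Obj}

lemma prod_hom_ext {f g : Z ⟶ X.prod Y} (h1 : f ≫ fst X Y = g ≫ fst X Y)
    (h2 : f ≫ snd X Y = g ≫ snd X Y) : f = g := by
  apply SmVar.hom_ext
  exact CategoryTheory.Limits.pullback.hom_ext (congrArg SmVar.Hom.hom h1) (congrArg SmVar.Hom.hom h2)

/-- Isomorphisms of polarized varieties, on the level of cohomology. -/
structure IsoP (W : WeilCohomology.{u, v} ops) (P Q : Polarized 𝒱) : Prop where
  ex : ∃ (θ : P.X ⟶ Q.X) (η : Q.X ⟶ P.X), θ ≫ η = 𝟙 _ ∧ η ≫ θ = 𝟙 _ ∧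
    (∀ c, W.tr P.X (W.map θ c) = W.tr Q.X c) ∧ W.map θ (W.cl _ Q.D) = W.cl _ P.D
  dim : P.X.dim = Q.X.dim

lemma IsoP.refl (P : Polarized 𝒱) : IsoP W P P :=
  ⟨⟨𝟙 _, 𝟙 _, Category.comp_id _, Category.comp_id _, fun c => by rw [W.map_id],
    W.map_id _ _⟩, rfl⟩

lemma IsoP.symm {P Q : Polarized 𝒱} (h : IsoP W P Q) : IsoP W Q P := by
  obtain ⟨θ, η, h1, h2, h3, h4⟩ := h.ex
  refine ⟨⟨η, θ, h2, h1, fun c => ?_, ?_⟩, h.dim.symm⟩
  · rw [← h3, ← W.map_comp, h1, W.map_id]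
  · rw [← h4, ← W.map_comp, h2, W.map_id]

lemma IsoP.trans {P Q R : Polarized 𝒱} (h : IsoP W P Q) (h' : IsoP W Q R) : IsoP W P R := by
  obtain ⟨θ, η, h1, h2, h3, h4⟩ := h.ex
  obtain ⟨θ', η', h1', h2', h3', h4'⟩ := h'.ex
  refine ⟨⟨θ ≫ θ', η' ≫ η, ?_, ?_, fun c => ?_, ?_⟩, h.dim.trans h'.dim⟩
  · rw [Category.assoc, ← Category.assoc θ', h1', Category.id_comp, h1]
  · rw [Category.assoc, ← Category.assoc η, h2, Category.id_comp, h2']
  · rw [W.map_comp, h3, h3']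
  · rw [W.map_comp, h4', h4]

lemma tr_lift {X' Y' : 𝒱.Obj} {α : X ⟶ X'} {β : Y ⟶ Y'}
    (h : ∀ c, W.tr X (W.map α c) = W.tr X' c) (h' : ∀ c, W.tr Y (W.map β c) = W.tr Y' c)
    (c : W.H (X'.prod Y')) :
    W.tr (X.prod Y) (W.map (Obj.lift (fst X Y ≫ α) (snd X Y ≫ β)) c) = W.tr _ c := by
  refine W.kunneth_induction (p := fun c => W.tr (X.prod Y)
    (W.map (Obj.lift (fst X Y ≫ α) (snd X Y ≫ β)) c) = W.tr _ c) ?_ ?_ c
  · intro a b ha hb
    rw [map_add, map_add, ha, hb, map_add]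
  · intro i j a _ b _
    rw [map_mul (W.map (Obj.lift (fst X Y ≫ α) (snd X Y ≫ β))), ← W.map_comp, ← W.map_comp,
      Obj.lift_fst, Obj.lift_snd, W.map_comp, W.map_comp, W.tr_prod, W.tr_prod, h, h']

lemma lift_comp {X' Y' X'' Y'' : 𝒱.Obj} (α : X ⟶ X') (β : Y ⟶ Y') (α' : X' ⟶ X'')
    (β' : Y' ⟶ Y'') : Obj.lift (fst X Y ≫ α) (snd X Y ≫ β) ≫
      Obj.lift (fst X' Y' ≫ α') (snd X' Y' ≫ β') =
      Obj.lift (fst X Y ≫ α ≫ α') (snd X Y ≫ β ≫ β') := by
  apply prod_hom_ext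
  · rw [Category.assoc, Obj.lift_fst, ← Category.assoc, Obj.lift_fst, Category.assoc,
      Obj.lift_fst]
  · rw [Category.assoc, Obj.lift_snd, ← Category.assoc, Obj.lift_snd, Category.assoc,
      Obj.lift_snd]

lemma lift_id : Obj.lift (fst X Y ≫ 𝟙 X) (snd X Y ≫ 𝟙 Y) = 𝟙 (X.prod Y) := by
  apply prod_hom_ext
  · rw [Obj.lift_fst, Category.comp_id, Category.id_comp]
  · rw [Obj.lift_snd, Category.comp_id, Category.id_comp]

lemma cl_prod_D' {D : X.Cycles} {E : Y.Cycles} :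
    W.cl (X.prod Y) (ops.pull (fst X Y) D + ops.pull (snd X Y) E) =
    W.map (fst X Y) (W.cl _ D) + W.map (snd X Y) (W.cl _ E) := by
  rw [map_add, W.cl_pull, W.cl_pull]

lemma cl_prod_D (P Q : Polarized 𝒱) : W.cl (P.X.prod Q.X) (P.prod ops Q).D =
    W.map (fst P.X Q.X) (W.cl _ P.D) + W.map (snd P.X Q.X) (W.cl _ Q.D) := cl_prod_D'

lemma IsoP.prod {P Q P' Q' : Polarized 𝒱} (h : IsoP W P P') (h' : IsoP W Q Q') :
    IsoP W (P.prod ops Q) (P'.prod ops Q') := by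
  obtain ⟨θ, η, h1, h2, h3, h4⟩ := h.ex
  obtain ⟨θ', η', h1', h2', h3', h4'⟩ := h'.ex
  refine ⟨⟨Obj.lift (fst P.X Q.X ≫ θ) (snd P.X Q.X ≫ θ'),
    Obj.lift (fst P'.X Q'.X ≫ η) (snd P'.X Q'.X ≫ η'), ?_, ?_, tr_lift h3 h3', ?_⟩, ?_⟩
  · exact (lift_comp _ _ _ _).trans (by rw [h1, h1']; exact lift_id)
  · exact (lift_comp _ _ _ _).trans (by rw [h2, h2']; exact lift_id)
  · change W.map (Obj.lift (fst P.X Q.X ≫ θ) (snd P.X Q.X ≫ θ')) (W.cl (P'.X.prod Q'.X)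
      (P'.prod ops Q').D) = W.cl (P.X.prod Q.X) (P.prod ops Q).D
    rw [cl_prod_D, cl_prod_D, map_add, ← W.map_comp, ← W.map_comp, Obj.lift_fst, Obj.lift_snd,
      W.map_comp, W.map_comp, h4, h4']
  · change P.X.dim + Q.X.dim = P'.X.dim + Q'.X.dim
    rw [h.dim, h'.dim]

/-- Associativity. -/
lemma assoc_aux (W : WeilCohomology.{u, v} ops) (X Y Z : 𝒱.Obj) :
    ∃ (θ : (X.prod Y).prod Z ⟶ X.prod (Y.prod Z)) (η : X.prod (Y.prod Z) ⟶ (X.prod Y).prod Z),
      θ ≫ η = 𝟙 _ ∧ η ≫ θ = 𝟙 _ ∧ (∀ c, W.tr ((X.prod Y).prod Z) (W.map θ c) = W.tr _ c) ∧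
      ∀ a b c, W.map θ (W.map (fst X (Y.prod Z)) a + W.map (snd X (Y.prod Z))
        (W.map (fst Y Z) b + W.map (snd Y Z) c)) = W.map (fst (X.prod Y) Z)
          (W.map (fst X Y) a + W.map (snd X Y) b) + W.map (snd (X.prod Y) Z) c := by
  let θ : (X.prod Y).prod Z ⟶ X.prod (Y.prod Z) := Obj.lift (fst (X.prod Y) Z ≫ fst X Y)
    (Obj.lift (fst (X.prod Y) Z ≫ snd X Y) (snd (X.prod Y) Z))
  let η : X.prod (Y.prod Z) ⟶ (X.prod Y).prod Z :=
    Obj.lift (Obj.lift (fst X (Y.prod Z)) (snd X (Y.prod Z) ≫ fst Y Z))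
    (snd X (Y.prod Z) ≫ snd Y Z)
  have e1 : θ ≫ fst X (Y.prod Z) = fst (X.prod Y) Z ≫ fst X Y := Obj.lift_fst _ _
  have e2 : θ ≫ snd X (Y.prod Z) = Obj.lift (fst (X.prod Y) Z ≫ snd X Y) (snd (X.prod Y) Z) :=
    Obj.lift_snd _ _
  have e3 : (θ ≫ snd X (Y.prod Z)) ≫ fst Y Z = fst (X.prod Y) Z ≫ snd X Y := by
    rw [e2, Obj.lift_fst]
  have e4 : (θ ≫ snd X (Y.prod Z)) ≫ snd Y Z = snd (X.prod Y) Z := by
    rw [e2, Obj.lift_snd]
  have g1 : η ≫ fst (X.prod Y) Z = Obj.lift (fst X (Y.prod Z)) (snd X (Y.prod Z) ≫ fst Y Z) :=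
    Obj.lift_fst _ _
  have g2 : η ≫ snd (X.prod Y) Z = snd X (Y.prod Z) ≫ snd Y Z := Obj.lift_snd _ _
  have g3 : (η ≫ fst (X.prod Y) Z) ≫ fst X Y = fst X (Y.prod Z) := by rw [g1, Obj.lift_fst]
  have g4 : (η ≫ fst (X.prod Y) Z) ≫ snd X Y = snd X (Y.prod Z) ≫ fst Y Z := by
    rw [g1, Obj.lift_snd]
  have tmul : ∀ (a : W.H X) (b : W.H Y) (c : W.H Z), W.map θ (W.map (fst X (Y.prod Z)) a *
      W.map (snd X (Y.prod Z)) (W.map (fst Y Z) b * W.map (snd Y Z) c)) =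
      W.map (fst (X.prod Y) Z) (W.map (fst X Y) a * W.map (snd X Y) b) *
        W.map (snd (X.prod Y) Z) c := by
    intro a b c
    rw [map_mul (W.map θ), ← W.map_comp, ← W.map_comp, e1, map_mul (W.map (θ ≫ snd X (Y.prod Z))),
      ← W.map_comp, ← W.map_comp, e3, e4, map_mul (W.map (fst (X.prod Y) Z)), ← W.map_comp,
      ← W.map_comp, mul_assoc]
  refine ⟨θ, η, ?_, ?_, ?_, ?_⟩
  · apply prod_hom_ext
    · apply prod_hom_ext
      · rw [Category.assoc, Category.assoc, ← Category.assoc η, g3, e1, Category.id_comp]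
      · rw [Category.assoc, Category.assoc, ← Category.assoc η, g4, ← Category.assoc, e3,
          Category.id_comp]
    · rw [Category.assoc, g2, ← Category.assoc, e4, Category.id_comp]
  · apply prod_hom_ext
    · rw [Category.assoc, e1, ← Category.assoc, g3, Category.id_comp]
    · apply prod_hom_ext
      · rw [Category.assoc, Category.assoc, ← Category.assoc θ, e3, ← Category.assoc, g4,
          Category.id_comp]
      · rw [Category.assoc, Category.assoc, ← Category.assoc θ, e4, g2, Category.id_comp]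
  · intro c
    refine W.kunneth_induction (p := fun c => W.tr ((X.prod Y).prod Z) (W.map θ c) =
      W.tr (X.prod (Y.prod Z)) c) ?_ ?_ c
    · intro a b ha hb
      rw [map_add, map_add, ha, hb, map_add]
    · intro i j a _ b _
      refine W.kunneth_induction (p := fun b => W.tr ((X.prod Y).prod Z) (W.map θ
        (W.map (fst X (Y.prod Z)) a * W.map (snd X (Y.prod Z)) b)) =
        W.tr (X.prod (Y.prod Z)) (W.map (fst X (Y.prod Z)) a * W.map (snd X (Y.prod Z)) b))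
        ?_ ?_ b
      · intro b b' hb hb'
        rw [map_add (W.map (snd X (Y.prod Z))), mul_add, map_add, map_add, hb, hb', map_add]
      · intro i' j' b _ c _
        rw [tmul, W.tr_prod, W.tr_prod, W.tr_prod, W.tr_prod, mul_assoc]
  · intro a b c
    rw [map_add (W.map θ), ← W.map_comp, ← W.map_comp, e1, map_add (W.map (θ ≫ _)),
      ← W.map_comp, ← W.map_comp, e3, e4, map_add (W.map (fst (X.prod Y) Z)), ← W.map_comp,
      ← W.map_comp, add_assoc]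

/-- Associativity. -/
lemma IsoP.assoc (P Q R : Polarized 𝒱) :
    IsoP W ((P.prod ops Q).prod ops R) (P.prod ops (Q.prod ops R)) := by
  obtain ⟨θ, η, h1, h2, h3, h4⟩ := assoc_aux W P.X Q.X R.X
  refine ⟨⟨θ, η, h1, h2, h3, ?_⟩, add_assoc _ _ _⟩
  have h5 := h4 (W.cl _ P.D) (W.cl _ Q.D) (W.cl _ R.D)
  rw [← cl_prod_D', ← cl_prod_D', ← cl_prod_D', ← cl_prod_D'] at h5
  exact h5

/-- Transport of families. -/
lemma IsoP.hasFamily {P Q : Polarized 𝒱} (h : IsoP W P Q) (hP : P.X.IsCyc 1 P.D)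
    (hQ : Q.X.IsCyc 1 Q.D) {n : ℕ} (hn : 2 * n ≤ P.X.dim) {s : ℚ} {r : ℕ}
    (hf : HasFamily W Q.X Q.D n s r) : HasFamily W P.X P.D n s r := by
  obtain ⟨z, hz, hpos, horth⟩ := hf
  obtain ⟨θ, η, h1, h2, h3, h4⟩ := h.ex
  have hpow : ∀ (m : ℕ) (x : W.H Q.X),
      ((LinearMap.mulLeft W.K (W.cl P.X P.D)) ^ m) (W.map θ x) =
        W.map θ (((LinearMap.mulLeft W.K (W.cl Q.X Q.D)) ^ m) x) := by
    intro m
    induction m with
    | zero => intro x; simp
    | succ m ih =>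
      intro x
      rw [pow_succ, Module.End.mul_apply, LinearMap.mulLeft_apply, ← h4, ← map_mul, h4, ih,
        pow_succ, Module.End.mul_apply, LinearMap.mulLeft_apply]
  have hprim : ∀ i, Primitive W P.X P.D n (ops.pull θ (z i)) := by
    intro i
    refine ⟨ops.pull_mem _ (hz i).1, ?_⟩
    have h5 := (hz i).2
    rw [cl_divPow] at h5
    rw [cl_divPow, W.cl_pull, hpow, h.dim, h5, map_zero]
  have hpair : ∀ i j, pairing ops P.X P.D n (ops.pull θ (z i))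
      (ops.pull θ (z j)) = pairing ops Q.X Q.D n (z i) (z j) := by
    intro i j
    have h5 : ((pairing ops P.X P.D n (ops.pull θ (z i))
      (ops.pull θ (z j)) : ℚ) : W.K) =
        ((pairing ops Q.X Q.D n (z i) (z j) : ℚ) : W.K) := by
      rw [pairing_cast hP hn (hprim i).1 (hprim j).1,
        pairing_cast hQ (by rw [← h.dim]; exact hn) (hz i).1 (hz j).1, W.cl_pull, W.cl_pull,
        hpow, ← map_mul, h3, h.dim]
    exact_mod_cast h5
  exact ⟨fun i => ops.pull θ (z i), hprim, fun i => by rw [hpair]; exact hpos i,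
    fun i j hij => by rw [hpair]; exact horth i j hij⟩

/-- Isomorphic polarized varieties have the same indices. -/
lemma IsoP.index_eq {P Q : Polarized 𝒱} (h : IsoP W P Q) (hP : P.X.IsCyc 1 P.D)
    (hQ : Q.X.IsCyc 1 Q.D) (s : ℚ) : index W P s = index W Q s := by
  rw [index, index, h.dim]
  apply Finset.sum_congr rfl
  intro n hn
  rw [Finset.mem_range] at hn
  congr 1
  ext r
  exact ⟨fun h' => h.symm.hasFamily hQ hP (by omega) h',
    fun h' => h.hasFamily hP hQ (by rw [h.dim]; omega) h'⟩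

lemma isCyc_prod {P Q : Polarized 𝒱} (hP : P.X.IsCyc 1 P.D) (hQ : Q.X.IsCyc 1 Q.D) :
    (P.prod ops Q).X.IsCyc 1 (P.prod ops Q).D :=
  SmVar.IsCyc.add (ops.pull_mem _ hP) (ops.pull_mem _ hQ)

lemma isCyc_power {P : Polarized 𝒱} (hP : P.X.IsCyc 1 P.D) (n : ℕ) :
    (power ops P n).X.IsCyc 1 (power ops P n).D := by
  induction n with
  | zero => exact hP
  | succ n ih => exact isCyc_prod hP ih

/-- The product of two powers. -/
lemma isoP_power (W : WeilCohomology.{u, v} ops) (P : Polarized 𝒱) (m : ℕ) : ∀ n N, N = m + n + 1 →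
    IsoP W ((power ops P m).prod ops (power ops P n)) (power ops P N) := by
  induction m with
  | zero =>
    intro n N hN
    obtain rfl : N = n + 1 := by omega
    exact IsoP.refl _
  | succ m ih =>
    intro n N hN
    obtain rfl : N = (m + n + 1) + 1 := by omega
    exact (IsoP.assoc P (power ops P m) (power ops P n)).trans
      ((IsoP.refl P).prod (ih n _ rfl))

end Pool.Agent.W5h89.Half
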