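import Pool.Agent.W5h89.Half.Rank
import Pool.Agent.R940.KBase

/-!
# The zero-half law for the standard conjecture of Hodge type
-/

open CategoryTheory AlgebraicGeometry Finset Filter Topology

universe u v

namespace Pool.Agent.W5h89.Half

open Pool.Agent.H914 Pool.Agent.H914.VarClass Pool.Agent.H914.VarClass.Obj
  Pool.Agent.H914.WeilCohomology Pool.Agent.H281R3.HT Pool.Agent.W552 Pool.Agent.W539.Ker

variable {k : Type u} [Field k] {𝒱 : VarClass k} {ops : CycleOps 𝒱}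
  {W : WeilCohomology.{u, v} ops} {X Y : 𝒱.Obj}

lemma par_kop {D : X.Cycles} (hD : X.IsCyc 1 D) (hHL : HardLefschetz W X D)
    (hB : LefschetzB W X D) : par (W.isInternal X) ∈ KOp W X X 0 := by
  obtain ⟨Φ, hΦ, hLam⟩ := lefschetzB_iff_rop.1 hB
  rw [par, scal_eq_sum (W.isInternal X) (N := 2 * X.dim + 1) W_hbd]
  apply Submodule.sum_mem
  intro i _
  apply Submodule.smul_mem
  exact mem_KS_iff.1 (Submodule.subset_span
    (rop_opAlg.proj_mem (W.isInternal X) W_hbd (rop_mulLeft hD) hHL hΦ hLam i))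

lemma power_X (ops : CycleOps 𝒱) (P : Polarized 𝒱) (n : ℕ) :
    (power ops P n).X = Y163.pw P.X n := by
  induction n with
  | zero => rfl
  | succ n ih =>
    change P.X.prod (power ops P n).X = P.X.prod (Y163.pw P.X n)
    rw [ih]

/-- The growth of the sum of the indices on the powers with an even number of factors. -/
lemma growth_even {P : Polarized 𝒱} (hP : GdP W P) (hpar : par (W.isInternal P.X) ∈
    KOp W P.X P.X 0) (n : ℕ) :
    Module.finrank W.K (W.H P.X) ^ (2 * n + 2) ≤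
      (index W (power ops P (2 * n + 1)) 1 + index W (power ops P (2 * n + 1)) (-1)) *
        (n + 2) ^ (Module.finrank W.K (W.H P.X) ^ 2) := by
  have h1 := R940.growth_any hpar n
  have hD : P.X.IsCyc 1 P.D := by
    obtain ⟨⟨g, G⟩, -⟩ := hP
    exact G.fr.hD
  have h2 := numRank_le (P := (power ops P n).prod ops (power ops P n))
    ((hP.power n).prod (hP.power n)) (M := (n + 1) * P.X.dim) (by
      change (power ops P n).X.dim + (power ops P n).X.dim = _
      rw [power_X, Y163.dim_pw]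
      ring)
  have h3 := isoP_power W P n n (2 * n + 1) (by ring)
  rw [h3.index_eq (isCyc_prod (isCyc_power hD n) (isCyc_power hD n)) (isCyc_power hD _),
    h3.index_eq (isCyc_prod (isCyc_power hD n) (isCyc_power hD n)) (isCyc_power hD _)] at h2
  have h4 : W534.numRank ops ((power ops P n).prod ops (power ops P n)).X ((n + 1) * P.X.dim) =
      W534.numRank ops (Y163.sq P.X n) ((n + 1) * P.X.dim) := by
    change W534.numRank ops ((power ops P n).X.prod (power ops P n).X) _ = _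
    rw [power_X]
    rfl
  rw [h4] at h2
  rw [← pow_mul, show 2 * (n + 1) = 2 * n + 2 by ring] at h1
  exact h1.trans (Nat.mul_le_mul_right _ h2)

/-- The growth of the sum of the indices. -/
lemma growth_all {P : Polarized 𝒱} (hP : GdP W P) (hpar : par (W.isInternal P.X) ∈
    KOp W P.X P.X 0) (n : ℕ) (hn : 1 ≤ n) :
    Module.finrank W.K (W.H P.X) ^ n ≤
      (index W (power ops P n) 1 + index W (power ops P n) (-1)) *
        (n + 2) ^ (Module.finrank W.K (W.H P.X) ^ 2) := by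
  rcases Nat.eq_zero_or_pos (Module.finrank W.K (W.H P.X)) with h0 | h0
  · rw [h0, zero_pow (by omega)]
    exact Nat.zero_le _
  obtain ⟨m, rfl | rfl⟩ : ∃ m, n = 2 * m + 1 ∨ n = 2 * m + 2 := ⟨(n - 1) / 2, by omega⟩
  · refine (Nat.pow_le_pow_right h0 (by omega)).trans ((growth_even hP hpar m).trans ?_)
    exact Nat.mul_le_mul_left _ (Nat.pow_le_pow_left (by omega) _)
  · refine (growth_even hP hpar m).trans (Nat.mul_le_mul ?_ (Nat.pow_le_pow_left (by omega) _))
    exact Nat.add_le_add (index_le_prod hP (hP.power _) (Or.inl rfl))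
      (index_le_prod hP (hP.power _) (Or.inr rfl))

/-- The limit of the bound. -/
lemma tendsto_bound (θ : ℝ) (h0 : 0 ≤ θ) (h1 : θ < 1) (κ e : ℕ) :
    Tendsto (fun n : ℕ => θ ^ (n / (κ + 1)) * ((n : ℝ) + 2) ^ e) atTop (𝓝 0) := by
  have h2 : Tendsto (fun m : ℕ => (m : ℝ) ^ e * θ ^ m) atTop (𝓝 0) :=
    tendsto_pow_const_mul_const_pow_of_abs_lt_one e (by rwa [abs_of_nonneg h0])
  have h3 : Tendsto (fun n : ℕ => n / (κ + 1)) atTop atTop := by
    apply tendsto_atTop_mono (f := fun n : ℕ => n / (κ + 1)) (g := fun n => n / (κ + 1))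
      (fun n => le_rfl)
    exact Nat.tendsto_div_const_atTop (by omega)
  have h4 : Tendsto (fun n : ℕ => ((2 * κ + 4 : ℕ) : ℝ) ^ e *
      (((n / (κ + 1) : ℕ) : ℝ) ^ e * θ ^ (n / (κ + 1)))) atTop (𝓝 0) := by
    have := (h2.comp h3).const_mul (((2 * κ + 4 : ℕ) : ℝ) ^ e)
    rw [mul_zero] at this
    exact this
  refine squeeze_zero' (Eventually.of_forall (fun n => by positivity)) ?_ h4
  filter_upwards [eventually_ge_atTop (κ + 1)] with n hn
  have h5 : 1 ≤ n / (κ + 1) := (Nat.one_le_div_iff (by omega)).2 hn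
  have h6 : n + 2 ≤ (2 * κ + 4) * (n / (κ + 1)) := by
    have h7 := Nat.div_add_mod n (κ + 1)
    have h8 := Nat.mod_lt n (show 0 < κ + 1 by omega)
    nlinarith
  have h7 : (n : ℝ) + 2 ≤ ((2 * κ + 4 : ℕ) : ℝ) * ((n / (κ + 1) : ℕ) : ℝ) := by exact_mod_cast h6
  have h8 : ((n : ℝ) + 2) ^ e ≤ (((2 * κ + 4 : ℕ) : ℝ) * ((n / (κ + 1) : ℕ) : ℝ)) ^ e :=
    pow_le_pow_left₀ (by positivity) h7 e
  calc θ ^ (n / (κ + 1)) * ((n : ℝ) + 2) ^ e ≤ θ ^ (n / (κ + 1)) *
        (((2 * κ + 4 : ℕ) : ℝ) * ((n / (κ + 1) : ℕ) : ℝ)) ^ e :=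
        mul_le_mul_of_nonneg_left h8 (pow_nonneg h0 _)
    _ = _ := by rw [mul_pow]; ring

/-- If the standard conjecture of Hodge type holds, then the negative index vanishes. -/
lemma index_neg_eq_zero {P : Polarized 𝒱} {f : Module.End W.K (W.H P.X)} (F : Fr W P.X P.D f)
    (h : HodgeStandard ops P) : index W P (-1) = 0 := by
  rw [index]
  apply Finset.sum_eq_zero
  intro n hn
  rw [Finset.mem_range] at hn
  rw [← le_zero_iff]
  apply csSup_le
  · exact ⟨0, Fin.elim0, fun i => i.elim0, fun i => i.elim0, fun i => i.elim0⟩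
  rintro r ⟨z, hz, hpos, -⟩
  by_contra hr
  have hi := hpos ⟨0, by omega⟩
  set z₀ := z ⟨0, by omega⟩ with hz₀
  have hp := hz ⟨0, by omega⟩
  rw [← hz₀] at hp
  have hn' : 2 * n ≤ P.X.dim := by omega
  have h1 : NumPrimitive ops P.X P.D n z₀ := by
    refine ⟨hp.1, fun m w hm hw => ?_⟩
    have h2 := ops.mul_mem (divPow_mem (ops := ops) F.hD (P.X.dim - 2 * n + 1) hp.1) hw
    rw [show n + (P.X.dim - 2 * n + 1) + m = P.X.dim by omega] at h2
    have h3 := W.tr_cl h2
    rw [W.cl_mul, hp.2, zero_mul, map_zero] at h3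
    exact_mod_cast h3.symm
  have h2 : ¬ NumTrivial ops P.X n z₀ := by
    intro h0
    have h3 := h0 (divPow ops P.D (P.X.dim - 2 * n) z₀) (by
      have := divPow_mem (ops := ops) F.hD (P.X.dim - 2 * n) hp.1
      rwa [show n + (P.X.dim - 2 * n) = P.X.dim - n by omega] at this)
    rw [pairing, h3, mul_zero, mul_zero] at hi
    exact lt_irrefl _ hi
  have h3 := h n hn' z₀ h1 h2
  linarith

/-- Products of a power and a tower. -/
lemma isoP_tower_add (W : WeilCohomology.{u, v} ops) (P Q : Polarized 𝒱) (κ : ℕ) : ∀ n N,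
    N = n + κ + 1 → IsoP W ((power ops P κ).prod ops (tower ops P Q n)) (tower ops P Q N) := by
  induction κ with
  | zero =>
    intro n N hN
    obtain rfl : N = n + 1 := by omega
    exact IsoP.refl _
  | succ κ ih =>
    intro n N hN
    obtain rfl : N = (n + κ + 1) + 1 := by omega
    exact (IsoP.assoc P (power ops P κ) (tower ops P Q n)).trans
      ((IsoP.refl P).prod (ih n _ rfl))

lemma isoP_tower_tower (W : WeilCohomology.{u, v} ops) (P Q : Polarized 𝒱) (κ r : ℕ) (m : ℕ) :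
    IsoP W (tower ops (power ops P κ) (tower ops P Q r) m) (tower ops P Q (m * (κ + 1) + r)) := by
  induction m with
  | zero => rw [zero_mul, zero_add]; exact IsoP.refl _
  | succ m ih =>
    refine ((IsoP.refl (power ops P κ)).prod ih).trans (isoP_tower_add W P Q κ _ _ ?_)
    ring

lemma GdP.tower {P Q : Polarized 𝒱} (h : GdP W P) (h' : GdP W Q) (n : ℕ) :
    GdP W (tower ops P Q n) := by
  induction n with
  | zero => exact h'
  | succ n ih => exact h.prod ih

lemma finrank_tower (W : WeilCohomology.{u, v} ops) (P Q : Polarized 𝒱) (n : ℕ) :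
    Module.finrank W.K (W.H (tower ops P Q n).X) =
      Module.finrank W.K (W.H P.X) ^ n * Module.finrank W.K (W.H Q.X) := by
  induction n with
  | zero => rw [pow_zero, one_mul]; rfl
  | succ n ih =>
    have h1 : Module.finrank W.K (W.H (P.X.prod (Half.tower ops P Q n).X)) =
        Module.finrank W.K (W.H P.X) * Module.finrank W.K (W.H (Half.tower ops P Q n).X) := by
      rw [← (kappa W P.X (Half.tower ops P Q n).X).finrank_eq, Module.finrank_tensorProduct]
    rw [pow_succ', mul_assoc, ← ih]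
    exact h1

/-- **The bound for the signature.** -/
theorem signature_bound {P Q : Polarized 𝒱} (hP : GdP W P) (hQ : GdP W Q) {κ : ℕ}
    (hκ : ¬ HodgeStandard ops (power ops P κ)) (n : ℕ) :
    |(index W (tower ops P Q n) 1 : ℤ) - index W (tower ops P Q n) (-1)| ≤
      ((Module.finrank W.K (W.H P.X) : ℤ) ^ (κ + 1) - 2) ^ (n / (κ + 1)) *
        ((Module.finrank W.K (W.H P.X) : ℤ) ^ (n % (κ + 1)) *
          Module.finrank W.K (W.H Q.X)) := by
  obtain ⟨⟨f, F⟩, hp⟩ := hP.power κ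
  obtain ⟨j, hj, z, hz, hneg⟩ : ∃ j, 2 * j ≤ (power ops P κ).X.dim ∧ ∃ z,
      Primitive W (power ops P κ).X (power ops P κ).D j z ∧
      pairing ops (power ops P κ).X (power ops P κ).D j z z < 0 := by
    by_contra hcon
    push Not at hcon
    exact hκ (hodgeStandard_of_nonneg F.fr hcon)
  have h1 := tower_bound (hP.power κ) (hP.tower hQ (n % (κ + 1))) hj hz hneg (n / (κ + 1))
  rw [finrank_power, finrank_tower] at h1
  have hD : P.X.IsCyc 1 P.D := by
    obtain ⟨⟨g, G⟩, -⟩ := hP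
    exact G.fr.hD
  have hE : Q.X.IsCyc 1 Q.D := by
    obtain ⟨⟨g, G⟩, -⟩ := hQ
    exact G.fr.hD
  have h2 := isoP_tower_tower W P Q κ (n % (κ + 1)) (n / (κ + 1))
  rw [mul_comm, Nat.div_add_mod] at h2
  have h3 := h2.index_eq (isCyc_tower (isCyc_power hD κ) (isCyc_tower hD hE _) _)
    (isCyc_tower hD hE n)
  rw [h3, h3] at h1
  push_cast at h1
  exact h1

/-- The growth of the sum of the indices. -/
lemma growth_tower {P Q : Polarized 𝒱} (hP : GdP W P) (hQ : GdP W Q)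
    (hpar : par (W.isInternal P.X) ∈ KOp W P.X P.X 0) (n : ℕ) (hn : 1 ≤ n) :
    Module.finrank W.K (W.H P.X) ^ n ≤
      (index W (tower ops P Q (n + 1)) 1 + index W (tower ops P Q (n + 1)) (-1)) *
        (n + 2) ^ (Module.finrank W.K (W.H P.X) ^ 2) := by
  refine (growth_all hP hpar n hn).trans (Nat.mul_le_mul_right _ ?_)
  have hD : P.X.IsCyc 1 P.D := by
    obtain ⟨⟨g, G⟩, -⟩ := hP
    exact G.fr.hD
  have hE : Q.X.IsCyc 1 Q.D := by
    obtain ⟨⟨g, G⟩, -⟩ := hQ
    exact G.fr.hD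
  have h2 := isoP_tower_add W P Q n 0 (n + 1) (by ring)
  have h3 := h2.index_eq (isCyc_prod (isCyc_power hD n) (isCyc_tower hD hE 0))
    (isCyc_tower hD hE (n + 1))
  rw [← h3, ← h3]
  exact Nat.add_le_add (index_le_prod_left hQ (hP.power n) (Or.inl rfl))
    (index_le_prod_left hQ (hP.power n) (Or.inr rfl))

/-- **The half law.** -/
theorem half_law {P Q : Polarized 𝒱} (hP : GdP W P) (hQ : GdP W Q)
    (hpar : par (W.isInternal P.X) ∈ KOp W P.X P.X 0) {κ : ℕ}
    (hκ : ¬ HodgeStandard ops (power ops P κ)) :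
    Tendsto (fun n => (index W (tower ops P Q n) (-1) : ℝ) /
      (index W (tower ops P Q n) 1 + index W (tower ops P Q n) (-1))) atTop (𝓝 (1 / 2)) := by
  set b := Module.finrank W.K (W.H P.X) with hb
  set c := Module.finrank W.K (W.H Q.X) with hc
  -- the Betti number
  have hb2 : 2 ≤ b ^ (κ + 1) := by
    obtain ⟨⟨f, F⟩, hp⟩ := hP.power κ
    obtain ⟨j, hj, z, hz, hneg⟩ : ∃ j, 2 * j ≤ (power ops P κ).X.dim ∧ ∃ z,
        Primitive W (power ops P κ).X (power ops P κ).D j z ∧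
        pairing ops (power ops P κ).X (power ops P κ).D j z z < 0 := by
      by_contra hcon
      push Not at hcon
      exact hκ (hodgeStandard_of_nonneg F.fr hcon)
    obtain ⟨p, q, t, t', c, Q, hr⟩ := exists_gq F hp hj hz hneg
    rw [finrank_power, ← hb] at hr
    omega
  have hb1 : 1 ≤ b := by
    by_contra h0
    rw [show b = 0 by omega, zero_pow (by omega)] at hb2
    omega
  have hbR : (0 : ℝ) < b := by exact_mod_cast hb1
  have hbk : (0 : ℝ) < (b : ℝ) ^ (κ + 1) := by positivity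
  have hb2R : (2 : ℝ) ≤ (b : ℝ) ^ (κ + 1) := by exact_mod_cast hb2
  set θ : ℝ := ((b : ℝ) ^ (κ + 1) - 2) / (b : ℝ) ^ (κ + 1) with hθ
  have hθ0 : 0 ≤ θ := div_nonneg (by linarith) hbk.le
  have hθ1 : θ < 1 := by rw [hθ, div_lt_one hbk]; linarith
  have hlim := (tendsto_bound θ hθ0 hθ1 κ (b ^ 2)).const_mul ((b : ℝ) * c / 2)
  rw [mul_zero] at hlim
  rw [tendsto_iff_norm_sub_tendsto_zero]
  refine squeeze_zero' (Eventually.of_forall (fun n => norm_nonneg _)) ?_ hlim
  filter_upwards [eventually_ge_atTop 2] with n hn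
  have hgN := growth_tower hP hQ hpar (n - 1) (by omega)
  rw [show n - 1 + 1 = n by omega, show n - 1 + 2 = n + 1 by omega] at hgN
  have hbN := signature_bound hP hQ hκ n
  rw [← hb] at hgN hbN
  rw [← hc] at hbN
  generalize index W (tower ops P Q n) 1 = p₀ at hgN hbN ⊢
  generalize index W (tower ops P Q n) (-1) = q₀ at hgN hbN ⊢
  have hg : (b : ℝ) ^ (n - 1) ≤ ((p₀ : ℝ) + q₀) * ((n : ℝ) + 1) ^ (b ^ 2) := by
    exact_mod_cast hgN
  have hd' : |(p₀ : ℝ) - q₀| ≤
      ((b : ℝ) ^ (κ + 1) - 2) ^ (n / (κ + 1)) * ((b : ℝ) ^ (n % (κ + 1)) * c) := by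
    have h1 : ((|(p₀ : ℤ) - q₀| : ℤ) : ℝ) ≤ ((((b : ℤ) ^ (κ + 1) - 2) ^ (n / (κ + 1)) *
      ((b : ℤ) ^ (n % (κ + 1)) * c) : ℤ) : ℝ) := Int.cast_le.2 hbN
    push_cast at h1
    exact h1
  generalize (p₀ : ℝ) = p at hg hd' ⊢
  generalize (q₀ : ℝ) = q at hg hd' ⊢
  have hT : 0 < p + q := by
    by_contra h0
    have h1 : (b : ℝ) ^ (n - 1) ≤ 0 :=
      hg.trans (mul_nonpos_of_nonpos_of_nonneg (not_lt.1 h0) (by positivity))
    have h2 : (0 : ℝ) < (b : ℝ) ^ (n - 1) := by positivity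
    linarith
  have hd : |p - q| ≤ (b : ℝ) ^ n * c * θ ^ (n / (κ + 1)) := by
    refine hd'.trans (le_of_eq ?_)
    have h3 : (b : ℝ) ^ n = ((b : ℝ) ^ (κ + 1)) ^ (n / (κ + 1)) * (b : ℝ) ^ (n % (κ + 1)) := by
      rw [← pow_mul, ← pow_add, Nat.div_add_mod]
    rw [h3, hθ, div_pow]
    have h4 : ((b : ℝ) ^ (κ + 1)) ^ (n / (κ + 1)) ≠ 0 := by positivity
    generalize (b : ℝ) ^ (κ + 1) = x at h4 ⊢
    field_simp
  rw [Real.norm_eq_abs]
  have h1 : q / (p + q) - 1 / 2 = -((p - q) / (2 * (p + q))) := by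
    field_simp
    ring
  rw [h1, abs_neg, abs_div, abs_of_pos (show (0 : ℝ) < 2 * (p + q) by linarith),
    div_le_iff₀ (by linarith)]
  refine hd.trans ?_
  have h3 : (b : ℝ) ^ n = b * (b : ℝ) ^ (n - 1) := by
    rw [← pow_succ', show n - 1 + 1 = n by omega]
  have h4 : ((n : ℝ) + 1) ^ (b ^ 2) ≤ ((n : ℝ) + 2) ^ (b ^ 2) :=
    pow_le_pow_left₀ (by positivity) (by linarith) _
  have h5 : (b : ℝ) ^ (n - 1) ≤ (p + q) * ((n : ℝ) + 2) ^ (b ^ 2) :=
    hg.trans (mul_le_mul_of_nonneg_left h4 hT.le)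
  have hcR : (0 : ℝ) ≤ c := Nat.cast_nonneg _
  have h2 : (b : ℝ) ^ n * c * θ ^ (n / (κ + 1)) ≤
      b * ((p + q) * ((n : ℝ) + 2) ^ (b ^ 2)) * c * θ ^ (n / (κ + 1)) := by
    rw [h3]
    exact mul_le_mul_of_nonneg_right (mul_le_mul_of_nonneg_right
      (mul_le_mul_of_nonneg_left h5 hbR.le) hcR) (pow_nonneg hθ0 _)
  refine h2.trans (le_of_eq ?_)
  ring

lemma gdP_of {P : Polarized 𝒱} (hD : P.X.IsCyc 1 P.D) (hHL : HardLefschetz W P.X P.D)
    (hB : LefschetzB W P.X P.D)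
    (hdeg : 0 < P.X.V.degCycle (divPow ops P.D P.X.dim P.X.V.fundCycle)) : GdP W P :=
  ⟨exists_gd hD hHL hB, hdeg⟩

end Pool.Agent.W5h89.Half
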