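import Pool.Agent.W5h89.Half.Fam2
import Pool.Agent.W5h89.Half.Defs

/-!
# Positivity on the primitive cycles modulo homological and modulo numerical equivalence
-/

open CategoryTheory AlgebraicGeometry Finset

universe u v

namespace Pool.Agent.W5h89.Half

open Pool.Agent.H914 Pool.Agent.H914.VarClass Pool.Agent.H914.VarClass.Obj
  Pool.Agent.H914.WeilCohomology Pool.Agent.H281R3.HT Pool.Agent.W552 Pool.Agent.W539.Ker

variable {k : Type u} [Field k] {𝒱 : VarClass k} {ops : CycleOps 𝒱}
  {W : WeilCohomology.{u, v} ops} {X Y : 𝒱.Obj} {D : X.Cycles} {f : Module.End W.K (W.H X)}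

/-- Cauchy-Schwarz for a semidefinite form. -/
lemma cs_zero {M : Type*} [AddCommGroup M] [Module ℚ M] (B : M →ₗ[ℚ] M →ₗ[ℚ] ℚ)
    (hB : ∀ x y, B x y = B y x) (hpos : ∀ x, 0 ≤ B x x) {x : M} (hx : B x x = 0) (y : M) :
    B x y = 0 := by
  by_contra h0
  have h1 := hpos ((-(B y y + 1) / (2 * B x y)) • x + y)
  have h2 : B ((-(B y y + 1) / (2 * B x y)) • x + y) ((-(B y y + 1) / (2 * B x y)) • x + y) =
      -1 := by
    simp only [map_add, map_smul, LinearMap.add_apply, LinearMap.smul_apply, smul_eq_mul, hx,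
      hB y x]
    field_simp
    ring
  rw [h2] at h1
  linarith

/-- The product of powers of `L` applied to primitive classes of different codimensions. -/
lemma tr_cross (hD : X.IsCyc 1 D) {i j a b : ℕ} {x y : W.H X} (hi : 2 * i ≤ X.dim)
    (hj : 2 * j ≤ X.dim) (hij : i ≠ j)
    (hx : ((LinearMap.mulLeft W.K (W.cl X D)) ^ (X.dim - 2 * i + 1)) x = 0)
    (hy : ((LinearMap.mulLeft W.K (W.cl X D)) ^ (X.dim - 2 * j + 1)) y = 0)
    (hab : a + b + i + j = X.dim) :
    W.tr X (((LinearMap.mulLeft W.K (W.cl X D)) ^ a) x *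
      ((LinearMap.mulLeft W.K (W.cl X D)) ^ b) y) = 0 := by
  rcases lt_or_gt_of_ne hij with h | h
  · rw [L_pow_self hD, ← Module.End.mul_apply, ← pow_add,
      L_pow_gt (n := X.dim) (i := 2 * j) hy (by omega), mul_zero, map_zero]
  · rw [← L_pow_self hD, ← Module.End.mul_apply, ← pow_add,
      L_pow_gt (n := X.dim) (i := 2 * i) hx (by omega), zero_mul, map_zero]

/-- **If the pairings are nonnegative on the primitive cycles modulo homological equivalence, then
the standard conjecture of Hodge type holds modulo numerical equivalence.** -/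
theorem hodgeStandard_of_nonneg {P : Polarized 𝒱} {f : Module.End W.K (W.H P.X)}
    (F : Fr W P.X P.D f)
    (h : ∀ n, 2 * n ≤ P.X.dim → ∀ z, Primitive W P.X P.D n z → 0 ≤ pairing ops P.X P.D n z z) :
    HodgeStandard ops P := by
  classical
  obtain ⟨X, D⟩ := P
  change Fr W X D f at F
  intro n hn z hz hnt
  change 2 * n ≤ X.dim at hn
  change NumPrimitive ops X D n z at hz
  change ¬ NumTrivial ops X n z at hnt
  change 0 < pairing ops X D n z z
  set L := LinearMap.mulLeft W.K (W.cl X D) with hL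
  -- the primitive decomposition
  have hdec : ∀ y, X.IsCyc n y → ∃ u : ℕ → X.Cycles, (∀ b ≤ n, Primitive W X D (n - b) (u b)) ∧
      W.cl X y = ∑ b ∈ range (n + 1), (L ^ b) (W.cl X (u b)) := by
    intro y hy
    obtain ⟨v, hv, hs⟩ := (ap_alg F).decomp_low (mulLeft_isHom F.hD) W_hbd n hn (W.cl X y)
      ⟨y, hy, rfl⟩
    have hv' : ∀ b, ∃ u : X.Cycles, b ≤ n → X.IsCyc (n - b) u ∧ W.cl X u = v b := by
      intro b
      by_cases hb : b ≤ n
      · obtain ⟨u, hu, hu'⟩ := (hv b hb).1
        exact ⟨u, fun _ => ⟨hu, hu'⟩⟩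
      · exact ⟨0, fun h0 => absurd h0 hb⟩
    choose u hu using hv'
    refine ⟨u, fun b hb => ⟨(hu b hb).1, ?_⟩, ?_⟩
    · rw [cl_divPow, (hu b hb).2]
      exact (hv b hb).2
    · rw [hs]
      apply Finset.sum_congr rfl
      intro b hb
      rw [(hu b (by have := Finset.mem_range.1 hb; omega)).2]
  obtain ⟨u, hu, hzs⟩ := hdec z hz.1
  have hup : ∀ b ≤ n, (L ^ (X.dim - 2 * (n - b) + 1)) (W.cl X (u b)) = 0 := by
    intro b hb
    rw [hL, ← cl_divPow]; exact (hu b hb).2
  -- the products
  have key : ∀ (y : X.Cycles) (w : ℕ → X.Cycles), (∀ b ≤ n, Primitive W X D (n - b) (w b)) →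
      W.cl X y = ∑ b ∈ range (n + 1), (L ^ b) (W.cl X (w b)) →
      W.tr X (W.cl X z * (L ^ (X.dim - 2 * n)) (W.cl X y)) =
        ((∑ b ∈ range (n + 1), (-1 : ℚ) ^ (n - b) * pairing ops X D (n - b) (u b) (w b) : ℚ) :
          W.K) := by
    intro y w hw hys
    rw [hzs, hys, map_sum, Finset.sum_mul_sum, map_sum, Rat.cast_sum]
    apply Finset.sum_congr rfl
    intro b hb
    have hb' : b ≤ n := by have := Finset.mem_range.1 hb; omega
    rw [map_sum, Finset.sum_eq_single b]
    · rw [← Module.End.mul_apply, ← pow_add, L_pow_self F.hD, ← Module.End.mul_apply, ← pow_add,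
        Rat.cast_mul, pairing_cast F.hD (by omega) (hu b hb').1 (hw b hb').1, ← hL,
        show b + (X.dim - 2 * n + b) = X.dim - 2 * (n - b) by omega]
      push_cast
      rw [← mul_assoc, ← mul_pow]
      simp
    · intro b' hb'' hne
      have hb3 : b' ≤ n := by have := Finset.mem_range.1 hb''; omega
      rw [← Module.End.mul_apply, ← pow_add]
      refine tr_cross F.hD (i := n - b) (j := n - b') (by omega) (by omega) (by omega)
        (hup b hb') ?_ (by omega)
      rw [← cl_divPow]; exact (hw b' hb3).2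
    · intro h0; exact absurd hb h0
  -- the pairings of the lower components vanish
  have hlow : ∀ b ≤ n, 1 ≤ b → ∀ y, Primitive W X D (n - b) y →
      pairing ops X D (n - b) (u b) y = 0 := by
    intro b hb hb1 y hy
    have hw := divPow_mem (ops := ops) F.hD (b - 1) hy.1
    have h1 := hz.2 (n - 1) (divPow ops D (b - 1) y) (by omega)
      (by rwa [show n - b + (b - 1) = n - 1 by omega] at hw)
    have hzc := divPow_mem (ops := ops) F.hD (X.dim - 2 * n + 1) hz.1
    have h2 := ops.mul_mem hzc hw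
    rw [show n + (X.dim - 2 * n + 1) + (n - b + (b - 1)) = X.dim by omega] at h2
    have h3 := W.tr_cl h2
    rw [h1, Rat.cast_zero, W.cl_mul, cl_divPow, cl_divPow, ← hL, hzs, map_sum, Finset.sum_mul,
      map_sum, Finset.sum_eq_single b] at h3
    · rw [← Module.End.mul_apply, ← pow_add, L_pow_self F.hD, ← hL, ← Module.End.mul_apply,
        ← pow_add, show X.dim - 2 * n + 1 + b + (b - 1) = X.dim - 2 * (n - b) by omega] at h3
      have h4 := pairing_cast (W := W) F.hD (n := n - b) (by omega) (hu b hb).1 hy.1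
      rw [← hL, h3, mul_zero] at h4
      exact_mod_cast h4
    · intro b' hb'' hne
      have hb3 : b' ≤ n := by have := Finset.mem_range.1 hb''; omega
      rw [← Module.End.mul_apply, ← pow_add]
      refine tr_cross F.hD (i := n - b') (j := n - b) (by omega) (by omega) (by omega)
        (hup b' hb3) ?_ (by omega)
      rw [← cl_divPow]; exact hy.2
    · intro h0; exact absurd (Finset.mem_range.2 (by omega)) h0
  have hsum : ∀ (w : ℕ → X.Cycles), (∀ b ≤ n, Primitive W X D (n - b) (w b)) →
      ∑ b ∈ range (n + 1), (-1 : ℚ) ^ (n - b) * pairing ops X D (n - b) (u b) (w b) =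
        (-1 : ℚ) ^ n * pairing ops X D n (u 0) (w 0) := by
    intro w hw
    rw [Finset.sum_eq_single 0]
    · rw [Nat.sub_zero]
    · intro b hb hb0
      have hb' : b ≤ n := by have := Finset.mem_range.1 hb; omega
      rw [hlow b hb' (by omega) _ (hw b hb'), mul_zero]
    · intro h0; exact absurd (Finset.mem_range.2 (by omega)) h0
  have hu0 : Primitive W X D n (u 0) := by have := hu 0 (by omega); rwa [Nat.sub_zero] at this
  have hzz : pairing ops X D n z z = pairing ops X D n (u 0) (u 0) := by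
    have h1 := pairing_cast (W := W) F.hD hn hz.1 hz.1
    rw [← hL, key z u hu hzs, hsum u hu] at h1
    have h2 : pairing ops X D n z z = (-1 : ℚ) ^ n * ((-1 : ℚ) ^ n *
        pairing ops X D n (u 0) (u 0)) := by exact_mod_cast h1
    rw [h2, ← mul_assoc, ← mul_pow]
    simp
  rw [hzz]
  refine lt_of_le_of_ne (h n hn _ hu0) (fun h0 => hnt ?_)
  -- the cycle is numerically trivial
  have hrad : ∀ y, Primitive W X D n y → pairing ops X D n (u 0) y = 0 := by
    intro y hy
    have := cs_zero (BP W F.hD n hn) (BP_symm F.hD hn) (fun x => h n hn _ x.2)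
      (x := ⟨u 0, hu0⟩) (by rw [BP_apply]; exact h0.symm) ⟨y, hy⟩
    rwa [BP_apply] at this
  intro w hw
  obtain ⟨w', hw', hww⟩ := F.lefschetzA n hn w hw
  obtain ⟨y, hy, hys⟩ := hdec w' hw'
  have h1 := ops.mul_mem hz.1 hw
  rw [show n + (X.dim - n) = X.dim by omega] at h1
  have h2 := W.tr_cl h1
  rw [W.cl_mul, ← hww, cl_divPow, ← hL, key w' y hy hys, hsum y hy,
    hrad _ (by have := hy 0 (by omega); rwa [Nat.sub_zero] at this), mul_zero, Rat.cast_zero] at h2
  exact_mod_cast h2.symm

end Pool.Agent.W5h89.Half
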