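import Pool.Agent.W5h89.Half.Base
import Pool.Agent.W5h89.Half.Iso
import Pool.Agent.W5h89.Half.Num

/-!
# The signature bound for the powers
-/

open CategoryTheory AlgebraicGeometry Finset

universe u v

namespace Pool.Agent.W5h89.Half

open Pool.Agent.H914 Pool.Agent.H914.VarClass Pool.Agent.H914.VarClass.Obj
  Pool.Agent.H914.WeilCohomology Pool.Agent.H281R3.HT Pool.Agent.W552 Pool.Agent.W539.Ker

variable {k : Type u} [Field k] {𝒱 : VarClass k} {ops : CycleOps 𝒱}
  {W : WeilCohomology.{u, v} ops} {X Y : 𝒱.Obj}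

section Deg

variable {D : X.Cycles} {f : Module.End W.K (W.H X)} {E : Y.Cycles}
  {g : Module.End W.K (W.H Y)}

lemma prim_fund (hD : X.IsCyc 1 D) : Primitive W X D 0 X.V.fundCycle := by
  have hfund : X.IsCyc 0 X.V.fundCycle := X.V.fundCycle_mem
  refine ⟨hfund, ?_⟩
  have h1 := W.cl_mem (divPow_mem (ops := ops) hD (X.dim - 2 * 0 + 1) hfund)
  rw [W.gr_eq_bot X _ (by omega)] at h1
  exact (Submodule.mem_bot _).1 h1

lemma pairing_fund (W : WeilCohomology.{u, v} ops) (hD : X.IsCyc 1 D) :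
    pairing ops X D 0 X.V.fundCycle X.V.fundCycle =
      X.V.degCycle (divPow ops D X.dim X.V.fundCycle) := by
  have hfund : X.IsCyc 0 X.V.fundCycle := X.V.fundCycle_mem
  have hcdeg : W.tr X (((LinearMap.mulLeft W.K (W.cl X D)) ^ X.dim) 1) =
      ((X.V.degCycle (divPow ops D X.dim X.V.fundCycle) : ℚ) : W.K) := by
    rw [← W.cl_fund, ← cl_divPow, W.tr_cl]
    have := divPow_mem (ops := ops) hD X.dim hfund
    rwa [zero_add] at this
  have h1 := pairing_cast (W := W) hD (n := 0) (by omega) hfund hfund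
  rw [W.cl_fund, one_mul, pow_zero, one_mul, Nat.mul_zero, Nat.sub_zero, hcdeg] at h1
  exact_mod_cast h1

/-- The form on the powers of the divisor. -/
lemma bf_pow_one (F : Fr W X D f) {j : ℕ} (hj : j ≤ X.dim) :
    bf W X D f (((LinearMap.mulLeft W.K (W.cl X D)) ^ j) 1)
      (((LinearMap.mulLeft W.K (W.cl X D)) ^ j) 1) =
      ((j.factorial * ((X.dim - j).factorial : ℚ)⁻¹ *
        X.V.degCycle (divPow ops D X.dim X.V.fundCycle) : ℚ) : W.K) := by
  have h1 := bf_same F (n := 0) (by omega) (prim_fund F.hD) (prim_fund F.hD) (j := j)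
    (by omega)
  rw [W.cl_fund, pairing_fund W F.hD, Nat.mul_zero, Nat.sub_zero] at h1
  exact h1

/-- The degree of the divisor on a product. -/
lemma deg_pos_prod (F : Fr W X D f) (G : Fr W Y E g)
    (h : 0 < X.V.degCycle (divPow ops D X.dim X.V.fundCycle))
    (h' : 0 < Y.V.degCycle (divPow ops E Y.dim Y.V.fundCycle)) :
    0 < (X.prod Y).V.degCycle (divPow ops (ops.pull (fst X Y) D + ops.pull (snd X Y) E)
      (X.prod Y).dim (X.prod Y).V.fundCycle) := by
  have e1 := bf_pow_one (F.prod G) (j := 0) (Nat.zero_le _)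
  have e2 := bf_pow_one F (j := 0) (Nat.zero_le _)
  have e3 := bf_pow_one G (j := 0) (Nat.zero_le _)
  rw [pow_zero, Module.End.one_apply] at e1 e2 e3
  have e4 := F.bf_ext G 1 1 1 1
  rw [H281R3.HT.ext, map_one, map_one, mul_one, e1, e2, e3, ← Rat.cast_mul] at e4
  have e5 : ((0 : ℕ).factorial : ℚ) * (((X.prod Y).dim - 0).factorial : ℚ)⁻¹ *
      (X.prod Y).V.degCycle (divPow ops (ops.pull (fst X Y) D + ops.pull (snd X Y) E)
      (X.prod Y).dim (X.prod Y).V.fundCycle) =
    ((0 : ℕ).factorial : ℚ) * ((X.dim - 0).factorial : ℚ)⁻¹ *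
        X.V.degCycle (divPow ops D X.dim X.V.fundCycle) *
      (((0 : ℕ).factorial : ℚ) * ((Y.dim - 0).factorial : ℚ)⁻¹ *
        Y.V.degCycle (divPow ops E Y.dim Y.V.fundCycle)) := by exact_mod_cast e4
  have e6 : (0 : ℚ) < ((0 : ℕ).factorial : ℚ) * (((X.prod Y).dim - 0).factorial : ℚ)⁻¹ *
      (X.prod Y).V.degCycle (divPow ops (ops.pull (fst X Y) D + ops.pull (snd X Y) E)
      (X.prod Y).dim (X.prod Y).V.fundCycle) := by
    rw [e5]
    positivity
  have e7 : (0 : ℚ) < ((0 : ℕ).factorial : ℚ) * (((X.prod Y).dim - 0).factorial : ℚ)⁻¹ := by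
    positivity
  rcases pos_and_pos_or_neg_and_neg_of_mul_pos e6 with h1 | h1
  · exact h1.2
  · exact absurd e7 (not_lt.2 h1.1.le)

end Deg

/-- A polarized variety with the Lefschetz standard conjecture. -/
def GdP (W : WeilCohomology.{u, v} ops) (P : Polarized 𝒱) : Prop :=
  (∃ f, Gd W P.X P.D f) ∧ 0 < P.X.V.degCycle (divPow ops P.D P.X.dim P.X.V.fundCycle)

lemma GdP.prod {P Q : Polarized 𝒱} (h : GdP W P) (h' : GdP W Q) : GdP W (P.prod ops Q) := by
  obtain ⟨⟨f, F⟩, hp⟩ := h
  obtain ⟨⟨g, G⟩, hq⟩ := h'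
  exact ⟨⟨_, gd_prod F G⟩, deg_pos_prod F.fr G.fr hp hq⟩

lemma GdP.power {P : Polarized 𝒱} (h : GdP W P) (n : ℕ) : GdP W (power ops P n) := by
  induction n with
  | zero => exact h
  | succ n ih => exact h.prod ih

/-- The total signature as a weighted sum. -/
lemma wsum_index (W : WeilCohomology.{u, v} ops) (P : Polarized 𝒱) :
    wsum P.X.dim (sig W P.X P.D) (-((P.X.dim % 2 : ℕ) : ℤ)) =
      (index W P 1 : ℤ) - index W P (-1) := by
  rw [wsum, index, index]
  push_cast
  rw [← Finset.sum_sub_distrib]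
  apply Finset.sum_congr rfl
  intro n hn
  rw [Finset.mem_range] at hn
  rw [if_pos]
  · rfl
  · rw [abs_neg, abs_of_nonneg (by omega)]
    omega

/-- **The bound for the signature on the products with powers.** -/
theorem tower_bound {Z Y : Polarized 𝒱} (hZ : GdP W Z) (hY : GdP W Y) {n : ℕ}
    (hn : 2 * n ≤ Z.X.dim) {z : Z.X.Cycles} (hz : Primitive W Z.X Z.D n z)
    (hneg : pairing ops Z.X Z.D n z z < 0) (m : ℕ) :
    |(index W (tower ops Z Y m) 1 : ℤ) - index W (tower ops Z Y m) (-1)| ≤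
      (Module.finrank W.K (W.H Z.X) - 2) ^ m * Module.finrank W.K (W.H Y.X) := by
  obtain ⟨⟨f, F⟩, hp⟩ := hZ
  obtain ⟨p, q, t, t', c, Q, hr⟩ := exists_gq F hp hn hz hneg
  have key : ∀ m, ∃ g e, Gd W (tower ops Z Y m).X (tower ops Z Y m).D g ∧
      Chain W (tower ops Z Y m).X (tower ops Z Y m).D g e ∧
      Module.finrank W.K (LinearMap.range e) ≤
        (Module.finrank W.K (W.H Z.X) - 2) ^ m * Module.finrank W.K (W.H Y.X) := by
    intro m
    induction m with
    | zero =>
      obtain ⟨⟨g, G⟩, -⟩ := hY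
      refine ⟨g, 1, G, Chain.one, ?_⟩
      rw [pow_zero, one_mul]
      exact Submodule.finrank_le _
    | succ m ih =>
      obtain ⟨g, e, G, C, he⟩ := ih
      refine ⟨_, _, gd_prod F G, C.prod F.fr G.fr Q, ?_⟩
      refine (finrank_range_extOp _ _).trans ?_
      rw [pow_succ', mul_assoc]
      exact Nat.mul_le_mul (by omega) he
  obtain ⟨g, e, G, C, he⟩ := key m
  have h1 := C.bound G.fr G.sy (-(((tower ops Z Y m).X.dim % 2 : ℕ) : ℤ))
  rw [wsum_index] at h1
  refine h1.trans ?_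
  have h2 : 2 ≤ Module.finrank W.K (W.H Z.X) := by omega
  have h3 : (Module.finrank W.K (LinearMap.range e) : ℤ) ≤
      (((Module.finrank W.K (W.H Z.X) - 2) ^ m * Module.finrank W.K (W.H Y.X) : ℕ) : ℤ) := by
    exact_mod_cast he
  refine h3.trans (le_of_eq ?_)
  push_cast [Nat.cast_sub h2]
  rfl

/-- The tower of powers is a power. -/
lemma isoP_tower (W : WeilCohomology.{u, v} ops) (P : Polarized 𝒱) (κ r : ℕ) (m : ℕ) :
    IsoP W (tower ops (power ops P κ) (power ops P r) m) (power ops P (m * (κ + 1) + r)) := by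
  induction m with
  | zero => rw [zero_mul, zero_add]; exact IsoP.refl _
  | succ m ih =>
    refine ((IsoP.refl (power ops P κ)).prod ih).trans (isoP_power W P κ _ _ ?_)
    ring

lemma isCyc_tower {Z Y : Polarized 𝒱} (hZ : Z.X.IsCyc 1 Z.D) (hY : Y.X.IsCyc 1 Y.D) (m : ℕ) :
    (tower ops Z Y m).X.IsCyc 1 (tower ops Z Y m).D := by
  induction m with
  | zero => exact hY
  | succ m ih => exact isCyc_prod hZ ih

lemma finrank_power (W : WeilCohomology.{u, v} ops) (P : Polarized 𝒱) (n : ℕ) :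
    Module.finrank W.K (W.H (power ops P n).X) = Module.finrank W.K (W.H P.X) ^ (n + 1) := by
  induction n with
  | zero => rw [zero_add, pow_one]; rfl
  | succ n ih =>
    have h1 : Module.finrank W.K (W.H (P.X.prod (power ops P n).X)) =
        Module.finrank W.K (W.H P.X) * Module.finrank W.K (W.H (power ops P n).X) := by
      rw [← (kappa W P.X (power ops P n).X).finrank_eq, Module.finrank_tensorProduct]
    rw [pow_succ', ← ih]
    exact h1

/-- **The bound for the signature on the powers.** -/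
theorem power_bound {P : Polarized 𝒱} (hP : GdP W P) {κ : ℕ}
    (hκ : ¬ HodgeStandard ops (power ops P κ)) (n : ℕ) :
    |(index W (power ops P n) 1 : ℤ) - index W (power ops P n) (-1)| ≤
      ((Module.finrank W.K (W.H P.X) : ℤ) ^ (κ + 1) - 2) ^ (n / (κ + 1)) *
        (Module.finrank W.K (W.H P.X) : ℤ) ^ (n % (κ + 1) + 1) := by
  obtain ⟨⟨f, F⟩, hp⟩ := hP.power κ
  -- a primitive cycle with negative square
  obtain ⟨j, hj, z, hz, hneg⟩ : ∃ j, 2 * j ≤ (power ops P κ).X.dim ∧ ∃ z,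
      Primitive W (power ops P κ).X (power ops P κ).D j z ∧
      pairing ops (power ops P κ).X (power ops P κ).D j z z < 0 := by
    by_contra hcon
    push Not at hcon
    exact hκ (hodgeStandard_of_nonneg F.fr hcon)
  have h1 := tower_bound (hP.power κ) (hP.power (n % (κ + 1))) hj hz hneg (n / (κ + 1))
  rw [finrank_power, finrank_power] at h1
  have hD : P.X.IsCyc 1 P.D := by
    obtain ⟨⟨g, G⟩, -⟩ := hP
    exact G.fr.hD
  have h2 := isoP_tower W P κ (n % (κ + 1)) (n / (κ + 1))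
  rw [mul_comm, Nat.div_add_mod] at h2
  have h3 := h2.index_eq (isCyc_tower (isCyc_power hD κ) (isCyc_power hD _) _)
    (isCyc_power hD n)
  rw [h3, h3] at h1
  push_cast at h1
  exact h1

end Pool.Agent.W5h89.Half
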