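import Pool.Agent.W5h89.Half.Pow
import Pool.Agent.W534.PoleDefs

/-!
# Lower bounds for the indices
-/

open CategoryTheory AlgebraicGeometry Finset

universe u v

namespace Pool.Agent.W5h89.Half

open Pool.Agent.H914 Pool.Agent.H914.VarClass Pool.Agent.H914.VarClass.Obj
  Pool.Agent.H914.WeilCohomology Pool.Agent.H281R3.HT Pool.Agent.W552 Pool.Agent.W539.Ker

section Abs

variable {K : Type*} [Field K] [CharZero K] {V : Type*} [AddCommGroup V] [Module K V]
  {P : V → Prop} {b : V →ₗ[K] V →ₗ[K] K}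

/-- The size of an orthogonal family of vectors with squares of the same sign. -/
theorem OMF.sign_le (h : QF P b) {ι κ : Type} [Fintype ι] [Fintype κ] {y : ι → V} {s : ι → ℚ}
    (o : OMF P b y s) {ε : ℚ} (hε : ε = 1 ∨ ε = -1) {z : κ → V} {t : κ → ℚ}
    (hz : ∀ i, P (z i)) (ht : ∀ i, b (z i) (z i) = (t i : K)) (hpos : ∀ i, 0 < ε * t i)
    (horth : ∀ i j, i ≠ j → b (z i) (z j) = 0) :
    Fintype.card κ ≤ (univ.filter (fun i => 0 < ε * s i)).card := by
  classical
  let _ := ratMod h.rs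
  obtain ⟨B, hB⟩ := h.exists_form
  have hBs : ∀ x y, B x y = B y x := by
    intro x y
    have h1 : ((B x y : ℚ) : K) = ((B y x : ℚ) : K) := by
      rw [hB, hB, h.symm _ _ x.2 y.2]
    exact_mod_cast h1
  obtain ⟨h1, h2⟩ := o.toOM h B hB
  let e := Fintype.equivFin κ
  have hzt : ∀ i, B ⟨z i, hz i⟩ ⟨z i, hz i⟩ = t i := by
    intro i
    have h3 := hB ⟨z i, hz i⟩ ⟨z i, hz i⟩
    rw [ht] at h3
    exact_mod_cast h3
  have hzo : ∀ i j, i ≠ j → B ⟨z i, hz i⟩ ⟨z j, hz j⟩ = 0 := by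
    intro i j hij
    have h3 := hB ⟨z i, hz i⟩ ⟨z j, hz j⟩
    rw [horth i j hij] at h3
    exact_mod_cast h3
  rcases hε with rfl | rfl
  · have h3 := h1.sylvester hBs (r := Fintype.card κ)
      (z := fun i => ⟨z (e.symm i), hz (e.symm i)⟩)
      (fun i => by rw [hzt]; have := hpos (e.symm i); rwa [one_mul] at this)
      (fun i j hij => hzo _ _ (fun h0 => hij (e.symm.injective h0)))
    refine h3.trans (le_of_eq ?_)
    simp only [h2, one_mul]
  · have h3 := h1.neg.sylvester (fun x y => by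
      rw [LinearMap.neg_apply, LinearMap.neg_apply, LinearMap.neg_apply, LinearMap.neg_apply,
        hBs]) (r := Fintype.card κ)
      (z := fun i => ⟨z (e.symm i), hz (e.symm i)⟩)
      (fun i => by
        rw [LinearMap.neg_apply, LinearMap.neg_apply, hzt]
        have := hpos (e.symm i)
        rwa [neg_one_mul] at this)
      (fun i j hij => by
        rw [LinearMap.neg_apply, LinearMap.neg_apply,
          hzo _ _ (fun h0 => hij (e.symm.injective h0)), neg_zero])
    refine h3.trans (le_of_eq ?_)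
    simp only [LinearMap.neg_apply, h2, neg_one_mul]

/-- A vector orthogonal to a maximal family lies in the radical. -/
lemma OMF.radical (h : QF P b) {ι : Type} [Fintype ι] {y : ι → V} {s : ι → ℚ}
    (o : OMF P b y s) {u : V} (hu : P u) (hui : ∀ i, b u (y i) = 0) {x : V} (hx : P x) :
    b u x = 0 := by
  classical
  choose q hq using fun i => h.rat _ _ hx (o.mem i)
  set x' := x - ∑ i, ((q i * (s i)⁻¹ : ℚ) : K) • y i with hx'
  have hPx' : P x' := h.rs.sub hx (h.rs.sum _ (fun i _ => h.rs.smul _ (o.mem i)))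
  have h1 : ∀ j, b x' (y j) = 0 := by
    intro j
    rw [hx', map_sub, LinearMap.sub_apply, map_sum b, LinearMap.sum_apply,
      Finset.sum_eq_single j, map_smul, LinearMap.smul_apply, o.sq, hq, smul_eq_mul,
      ← Rat.cast_mul, inv_mul_cancel_right₀ (o.ne j), sub_self]
    · intro i _ hij
      rw [map_smul, LinearMap.smul_apply, o.orth i j hij, smul_zero]
    · intro h0; exact absurd (Finset.mem_univ _) h0
  have h2 := o.max u hu hui
  have h3 := o.max x' hPx' h1
  have h4 := o.max (u + x') (h.rs.add hu hPx') (fun i => by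
    rw [map_add, LinearMap.add_apply, hui, h1, add_zero])
  rw [map_add b, LinearMap.add_apply, map_add, map_add, h2, h3, zero_add, add_zero,
    h.symm _ _ hPx' hu] at h4
  have h5 : b u x' = 0 := by
    have h6 : (2 : K) * b u x' = 0 := by rw [two_mul]; exact h4
    exact (mul_eq_zero.1 h6).resolve_left two_ne_zero
  have h6 : x = x' + ∑ i, ((q i * (s i)⁻¹ : ℚ) : K) • y i := by rw [hx']; abel
  rw [h6, map_add, h5, zero_add, map_sum]
  apply Finset.sum_eq_zero
  intro i _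
  rw [map_smul, hui, smul_zero]

end Abs

variable {k : Type u} [Field k] {𝒱 : VarClass k} {ops : CycleOps 𝒱}
  {W : WeilCohomology.{u, v} ops} {X Y : 𝒱.Obj}

/-- The weight in which all primitive classes contribute. -/
def wt0 (d : ℕ) : ℤ := -((d % 2 : ℕ) : ℤ)

/-- The indices from a maximal family. -/
lemma exists_index {P : Polarized 𝒱} {f : Module.End W.K (W.H P.X)} (F : Fr W P.X P.D f) :
    ∃ (ι : Type) (_ : Fintype ι) (y : ι → W.H P.X) (s : ι → ℚ),
      OMF (PW W P.X (wt0 P.X.dim)) (bf W P.X P.D f) y s ∧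
      (∀ ε : ℚ, (ε = 1 ∨ ε = -1) → (univ.filter (fun i => 0 < ε * s i)).card = index W P ε) ∧
      Fintype.card ι = index W P 1 + index W P (-1) := by
  classical
  obtain ⟨ι, hι, y, s, h1, h2, h3, h4, h5, h6, h7⟩ := exists_fam' F (wt0 P.X.dim)
  have o : OMF (PW W P.X (wt0 P.X.dim)) (bf W P.X P.D f) y s :=
    ⟨fun i => ⟨h1 i, h2 i⟩, h3, h4, h5, fun u hu => h6 u hu.1 hu.2⟩
  have h8 : ∀ ε : ℚ, (ε = 1 ∨ ε = -1) → (univ.filter (fun i => 0 < ε * s i)).card =
      index W P ε := by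
    intro ε hε
    rw [h7 ε hε, index]
    apply Finset.sum_congr rfl
    intro n hn
    rw [Finset.mem_range] at hn
    rw [if_pos]
    rw [wt0, abs_neg, abs_of_nonneg (by omega)]
    omega
  refine ⟨ι, hι, y, s, o, h8, ?_⟩
  rw [← h8 1 (Or.inl rfl), ← h8 (-1) (Or.inr rfl), ← Finset.card_univ,
    ← Finset.card_filter_add_card_filter_not (s := univ) (fun i => 0 < 1 * s i)]
  congr 2
  ext i
  rw [Finset.mem_filter, Finset.mem_filter, one_mul, neg_one_mul, neg_pos, not_lt]
  constructor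
  · rintro ⟨a, b⟩; exact ⟨a, lt_of_le_of_ne b (h3 i)⟩
  · rintro ⟨a, b⟩; exact ⟨a, b.le⟩

/-- The indices of a product. -/
lemma index_le_prod {P Q : Polarized 𝒱} (hP : GdP W P) (hQ : GdP W Q) {ε : ℚ}
    (hε : ε = 1 ∨ ε = -1) : index W Q ε ≤ index W (P.prod ops Q) ε := by
  classical
  obtain ⟨⟨f, F⟩, hp⟩ := hP
  obtain ⟨⟨g, G⟩, hq⟩ := hQ
  obtain ⟨ι, hι, y, s, o, h1, -⟩ := exists_index G.fr
  have FG := gd_prod F G
  obtain ⟨ι', hι', y', s', o', h1', -⟩ := exists_index (P := P.prod ops Q) FG.fr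
  rw [← h1 ε hε, ← h1' ε hε]
  obtain ⟨j, hj, hj2⟩ : ∃ j : ℕ, j ≤ P.X.dim ∧
      (2 * j : ℤ) = P.X.dim + wt0 (P.X.dim + Q.X.dim) - wt0 Q.X.dim := by
    refine ⟨(P.X.dim + Q.X.dim % 2 - (P.X.dim + Q.X.dim) % 2) / 2, ?_, ?_⟩
    · omega
    · rw [wt0, wt0]
      omega
  set a := ((LinearMap.mulLeft W.K (W.cl P.X P.D)) ^ j) (1 : W.H P.X) with ha
  have haa := bf_pow_one F.fr hj
  rw [← ha] at haa
  set c : ℚ := (j.factorial * ((P.X.dim - j).factorial : ℚ)⁻¹ *
        P.X.V.degCycle (divPow ops P.D P.X.dim P.X.V.fundCycle) : ℚ) with hc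
  have hc0 : 0 < c := by rw [hc]; positivity
  have haA : a ∈ algClasses W P.X j := by
    have h2 := (ap_alg F.fr).map_L_pow j (l := 0) ⟨P.X.V.fundCycle, P.X.V.fundCycle_mem, rfl⟩
    rw [W.cl_fund, zero_add] at h2
    exact h2
  have hawt : wt (W.isInternal P.X) P.X.dim a = ((2 * j : ℤ) - P.X.dim : W.K) • a := by
    rw [Fr.wt_gr (alg_gr haA)]
    congr 1
    push_cast
    ring
  have key := o'.sign_le (qf_PW FG.fr FG.sy _) hε (κ := {i // 0 < ε * s i})
    (z := fun i => H281R3.HT.ext W a (y i.1)) (t := fun i => c * s i.1) ?_ ?_ ?_ ?_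
  · rw [Fintype.card_subtype] at key
    exact key
  · intro i
    refine ⟨(AS.of haA).ext (o.mem i.1).1, ?_⟩
    change wt (W.isInternal (P.X.prod Q.X)) (P.X.prod Q.X).dim (W.map (fst P.X Q.X) a *
      W.map (snd P.X Q.X) (y i.1)) = _
    rw [wt_prod, extSum_tmul, hawt, (o.mem i.1).2, map_smul, map_smul, smul_mul_assoc,
      mul_smul_comm, ← add_smul]
    congr 1
    have h3 : (((2 * j : ℤ) - P.X.dim + wt0 Q.X.dim : ℤ) : W.K) =
        ((wt0 (P.prod ops Q).X.dim : ℤ) : W.K) := by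
      congr 1
      change _ = wt0 (P.X.dim + Q.X.dim)
      rw [hj2]; ring
    rw [← h3]
    push_cast
    ring
  · intro i
    have h2 := F.fr.bf_ext G.fr a a (y i.1) (y i.1)
    rw [haa, o.sq] at h2
    rw [Rat.cast_mul]
    exact h2
  · intro i
    change 0 < ε * (c * s i.1)
    rw [mul_left_comm]
    exact mul_pos hc0 i.2
  · intro i i' hii
    have h2 := F.fr.bf_ext G.fr a a (y i.1) (y i'.1)
    rw [o.orth _ _ (fun h0 => hii (Subtype.ext h0)), mul_zero] at h2
    exact h2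

/-- The indices of a product. -/
lemma index_le_prod_left {P Q : Polarized 𝒱} (hP : GdP W P) (hQ : GdP W Q) {ε : ℚ}
    (hε : ε = 1 ∨ ε = -1) : index W Q ε ≤ index W (Q.prod ops P) ε := by
  classical
  obtain ⟨⟨f, F⟩, hp⟩ := hP
  obtain ⟨⟨g, G⟩, hq⟩ := hQ
  obtain ⟨ι, hι, y, s, o, h1, -⟩ := exists_index G.fr
  have FG := gd_prod G F
  obtain ⟨ι', hι', y', s', o', h1', -⟩ := exists_index (P := Q.prod ops P) FG.fr
  rw [← h1 ε hε, ← h1' ε hε]
  obtain ⟨j, hj, hj2⟩ : ∃ j : ℕ, j ≤ P.X.dim ∧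
      (2 * j : ℤ) = P.X.dim + wt0 (Q.X.dim + P.X.dim) - wt0 Q.X.dim := by
    refine ⟨(P.X.dim + Q.X.dim % 2 - (P.X.dim + Q.X.dim) % 2) / 2, ?_, ?_⟩
    · omega
    · rw [wt0, wt0]
      omega
  set a := ((LinearMap.mulLeft W.K (W.cl P.X P.D)) ^ j) (1 : W.H P.X) with ha
  have haa := bf_pow_one F.fr hj
  rw [← ha] at haa
  set c : ℚ := (j.factorial * ((P.X.dim - j).factorial : ℚ)⁻¹ *
        P.X.V.degCycle (divPow ops P.D P.X.dim P.X.V.fundCycle) : ℚ) with hc
  have hc0 : 0 < c := by rw [hc]; positivity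
  have haA : a ∈ algClasses W P.X j := by
    have h2 := (ap_alg F.fr).map_L_pow j (l := 0) ⟨P.X.V.fundCycle, P.X.V.fundCycle_mem, rfl⟩
    rw [W.cl_fund, zero_add] at h2
    exact h2
  have hawt : wt (W.isInternal P.X) P.X.dim a = ((2 * j : ℤ) - P.X.dim : W.K) • a := by
    rw [Fr.wt_gr (alg_gr haA)]
    congr 1
    push_cast
    ring
  have key := o'.sign_le (qf_PW FG.fr FG.sy _) hε (κ := {i // 0 < ε * s i})
    (z := fun i => H281R3.HT.ext W (y i.1) a) (t := fun i => c * s i.1) ?_ ?_ ?_ ?_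
  · rw [Fintype.card_subtype] at key
    exact key
  · intro i
    refine ⟨(o.mem i.1).1.ext (AS.of haA), ?_⟩
    change wt (W.isInternal (Q.X.prod P.X)) (Q.X.prod P.X).dim (W.map (fst Q.X P.X) (y i.1) *
      W.map (snd Q.X P.X) a) = _
    rw [wt_prod, extSum_tmul, hawt, (o.mem i.1).2, map_smul, map_smul, smul_mul_assoc,
      mul_smul_comm, ← add_smul]
    congr 1
    have h3 : (((2 * j : ℤ) - P.X.dim + wt0 Q.X.dim : ℤ) : W.K) =
        ((wt0 (Q.prod ops P).X.dim : ℤ) : W.K) := by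
      congr 1
      change _ = wt0 (Q.X.dim + P.X.dim)
      rw [hj2]; ring
    rw [← h3]
    push_cast
    ring
  · intro i
    have h2 := G.fr.bf_ext F.fr (y i.1) (y i.1) a a
    rw [haa, o.sq, mul_comm] at h2
    rw [Rat.cast_mul]
    exact h2
  · intro i
    change 0 < ε * (c * s i.1)
    rw [mul_left_comm]
    exact mul_pos hc0 i.2
  · intro i i' hii
    have h2 := G.fr.bf_ext F.fr (y i.1) (y i'.1) a a
    rw [o.orth _ _ (fun h0 => hii (Subtype.ext h0)), zero_mul] at h2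
    exact h2

/-- **The rank of the group of cycles in the middle codimension modulo numerical equivalence is at
most the sum of the indices.** -/
lemma numRank_le {P : Polarized 𝒱} (hP : GdP W P) {M : ℕ} (hM : P.X.dim = 2 * M) :
    W534.numRank ops P.X M ≤ index W P 1 + index W P (-1) := by
  classical
  obtain ⟨⟨f, F⟩, hp⟩ := hP
  obtain ⟨ι, hι, y, s, o, -, h1⟩ := exists_index F.fr
  rw [← h1]
  have hw0 : wt0 P.X.dim = 0 := by rw [wt0, hM]; omega
  -- the cycles
  have hy : ∀ i, ∃ ζ : P.X.Cycles, P.X.IsCyc M ζ ∧ W.cl P.X ζ = y i := by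
    intro i
    rcases AS_wt (o.mem i).1 (o.mem i).2 with h0 | ⟨j, hj, hyj⟩
    · exfalso
      have h2 := o.sq i
      rw [h0, map_zero] at h2
      exact o.ne i (by exact_mod_cast h2.symm)
    · obtain rfl : j = M := by rw [hw0, hM] at hj; omega
      exact hyj
  choose ζ hζ hζy using hy
  have hPW : ∀ z : P.X.Cycles, P.X.IsCyc M z → PW W P.X (wt0 P.X.dim) (W.cl P.X z) := by
    intro z hz
    refine ⟨AS.of ⟨z, hz, rfl⟩, ?_⟩
    rw [Fr.wt_gr (W.cl_mem hz), hw0, hM]
    congr 1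
    push_cast
    ring
  have hst : ∀ x, PW W P.X (wt0 P.X.dim) x → PW W P.X (wt0 P.X.dim) (st W P.X P.D f x) := by
    intro x hx
    refine ⟨F.fr.st_AS hx.1, ?_⟩
    rw [hw0] at hx ⊢
    rcases AS_wt hx.1 hx.2 with h0 | ⟨j, hj, hyj⟩
    · rw [h0, map_zero, map_zero, smul_zero]
    · have h2 : st W P.X P.D f x ∈ W.gr P.X (2 * P.X.dim - 2 * j) := by
        rw [st_apply (alg_gr hyj)]
        exact Submodule.smul_mem _ _ (F.fr.w_mem (by omega) (alg_gr hyj))
      rw [Fr.wt_gr h2]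
      congr 1
      have h3 : ((2 * P.X.dim - 2 * j : ℕ) : ℤ) - (P.X.dim : ℤ) = 0 := by omega
      have h4 : (((2 * P.X.dim - 2 * j : ℕ) : ℤ) - (P.X.dim : ℤ) : ℤ) = (0 : ℤ) := h3
      have h5 : ((((2 * P.X.dim - 2 * j : ℕ) : ℤ) - (P.X.dim : ℤ) : ℤ) : W.K) = ((0 : ℤ) : W.K) := by
        rw [h4]
      push_cast at h5 ⊢
      exact h5
  have key : Submodule.span ℚ (Set.range (W534.interNumbers ops P.X M)) ≤
      Submodule.span ℚ (Set.range (fun i => W534.interNumbers ops P.X M ⟨ζ i, hζ i⟩)) := by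
    rw [Submodule.span_le]
    rintro _ ⟨⟨z, hz⟩, rfl⟩
    choose q hq using fun i => (qf_PW F.fr F.sy _).rat _ _ (hPW z hz) (o.mem i)
    have h2 : W534.interNumbers ops P.X M ⟨z, hz⟩ =
        ∑ i, (q i * (s i)⁻¹) • W534.interNumbers ops P.X M ⟨ζ i, hζ i⟩ := by
      funext w
      rw [Finset.sum_apply]
      simp only [Pi.smul_apply, smul_eq_mul]
      change P.X.V.degCycle (ops.mul z w.1) = ∑ i, (q i * (s i)⁻¹) *
        P.X.V.degCycle (ops.mul (ζ i) w.1)
      obtain ⟨w, hw⟩ := w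
      have hw' : P.X.IsCyc M w := by rwa [hM, show 2 * M - M = M by omega] at hw
      set uu := W.cl P.X z - ∑ i, ((q i * (s i)⁻¹ : ℚ) : W.K) • y i with huu
      have hPu : PW W P.X (wt0 P.X.dim) uu :=
        (qf_PW F.fr F.sy _).rs.sub (hPW z hz) ((qf_PW F.fr F.sy _).rs.sum _
          (fun i _ => (qf_PW F.fr F.sy _).rs.smul _ (o.mem i)))
      have h3 : ∀ j, bf W P.X P.D f uu (y j) = 0 := by
        intro j
        rw [huu, map_sub, LinearMap.sub_apply, map_sum (bf W P.X P.D f), LinearMap.sum_apply,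
          Finset.sum_eq_single j, map_smul, LinearMap.smul_apply, o.sq, hq, smul_eq_mul,
          ← Rat.cast_mul, inv_mul_cancel_right₀ (o.ne j), sub_self]
        · intro i _ hij
          rw [map_smul, LinearMap.smul_apply, o.orth i j hij, smul_zero]
        · intro h0; exact absurd (Finset.mem_univ _) h0
      have h4 := o.radical (qf_PW F.fr F.sy _) hPu h3 (hst _ (hPW w hw'))
      rw [bf_apply, F.st_st_apply, huu, sub_mul, map_sub, Finset.sum_mul, map_sum,
        sub_eq_zero, ← W.cl_mul, W.tr_cl] at h4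
      · have h5 : ((P.X.V.degCycle (ops.mul z w) : ℚ) : W.K) =
            ((∑ i, (q i * (s i)⁻¹) * P.X.V.degCycle (ops.mul (ζ i) w) : ℚ) : W.K) := by
          rw [h4, Rat.cast_sum]
          apply Finset.sum_congr rfl
          intro i _
          rw [smul_mul_assoc, map_smul, ← hζy, ← W.cl_mul, W.tr_cl, smul_eq_mul,
            ← Rat.cast_mul]
          have := ops.mul_mem (hζ i) hw'
          rwa [← two_mul, ← hM] at this
        exact_mod_cast h5
      · have := ops.mul_mem hz hw'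
        rwa [← two_mul, ← hM] at this
    change W534.interNumbers ops P.X M ⟨z, hz⟩ ∈ _
    rw [h2]
    exact Submodule.sum_mem _ (fun i _ => Submodule.smul_mem _ _
      (Submodule.subset_span ⟨i, rfl⟩))
  have hfin : Module.Finite ℚ (Submodule.span ℚ (Set.range
      (fun i => W534.interNumbers ops P.X M ⟨ζ i, hζ i⟩))) :=
    Module.Finite.span_of_finite ℚ (Set.finite_range _)
  rw [W534.numRank]
  refine (Submodule.finrank_mono key).trans ?_
  exact (finrank_range_le_card _)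

end Pool.Agent.W5h89.Half
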